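import Mathlib

/-!
# A vector with one dominating pair of entries: all relations between its translates

`G` is a finite group which acts transitively on the finite set `X` and commutes with the
involution `inv`; `u` is an antisymmetric vector with `∑ |u x| ≤ 4 |u x₀|`. The relations between
the translates of `u` are the antisymmetric integral vectors orthogonal to them.
-/

set_option autoImplicit false
set_option linter.unusedSectionVars false

namespace Pool.Agent.Helper33Dom

section comb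

variable {X : Type*} [Fintype X] (G : Type*) [Group G] [Fintype G] [MulAction G X]

/-- An antisymmetric integral vector which is orthogonal to the translates of `u`. -/
def IsRel (inv : X → X) (u : X → ℝ) (c : X → ℤ) : Prop :=
  (∀ x, c (inv x) = -c x) ∧ ∀ g : G, ∑ x, (c x : ℝ) * u (g • x) = 0

/-- All relations have the same value at `x` and `y`. -/
def Eqv (inv : X → X) (u : X → ℝ) (x y : X) : Prop :=
  ∀ c : X → ℤ, IsRel G inv u c → c x = c y

variable {G} {inv : X → X} {u : X → ℝ}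

theorem IsRel.sum_smul {c : X → ℤ} (hc : IsRel G inv u c) (h : G) :
    ∑ y, (c (h • y) : ℝ) * u y = 0 := by
  rw [← hc.2 h⁻¹]
  refine Fintype.sum_equiv (MulAction.toPerm h) _ _ fun y => ?_
  simp

theorem IsRel.translate (hG : ∀ (g : G) (x : X), g • inv x = inv (g • x)) {c : X → ℤ}
    (hc : IsRel G inv u c) (h : G) : IsRel G inv u (fun x => c (h • x)) := by
  refine ⟨fun x => ?_, fun g => ?_⟩
  · change c (h • inv x) = -c (h • x)
    rw [hG, hc.1]
  rw [← hc.2 (g * h⁻¹)]
  refine Fintype.sum_equiv (MulAction.toPerm h) _ _ fun y => ?_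
  simp [mul_smul]

theorem Eqv.refl (x : X) : Eqv G inv u x x := fun _ _ => rfl

theorem Eqv.symm {x y : X} (h : Eqv G inv u x y) : Eqv G inv u y x := fun c hc => (h c hc).symm

theorem Eqv.trans {x y z : X} (h : Eqv G inv u x y) (h' : Eqv G inv u y z) : Eqv G inv u x z :=
  fun c hc => (h c hc).trans (h' c hc)

theorem Eqv.smul (hG : ∀ (g : G) (x : X), g • inv x = inv (g • x)) {x y : X}
    (h : Eqv G inv u x y) (g : G) : Eqv G inv u (g • x) (g • y) :=
  fun _ hc => h _ (hc.translate hG g)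

theorem Eqv.inv_inv {x y : X} (h : Eqv G inv u x y) : Eqv G inv u (inv x) (inv y) :=
  fun c hc => by rw [hc.1, hc.1, h c hc]

/-- The main equality. -/
theorem dom_eq [MulAction.IsPretransitive G X] (hinv : ∀ x, inv (inv x) = x)
    (hne : ∀ x, inv x ≠ x) (hG : ∀ (g : G) (x : X), g • inv x = inv (g • x))
    (hu : ∀ x, u (inv x) = -u x) (x₀ : X) (hx₀ : u x₀ ≠ 0) (hdom : ∑ x, |u x| ≤ 4 * |u x₀|)
    (c : X → ℤ) (hc : IsRel G inv u c) :
    (∀ y, y ≠ inv x₀ → u y * u x₀ < 0 → c y = c x₀) ∧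
      ((∃ x, c x ≠ 0) → ∑ x, |u x| = 4 * |u x₀| ∧ ∃ y, y ≠ x₀ ∧ y ≠ inv x₀ ∧ u y * u x₀ < 0) := by
  classical
  have hrel := hc.sum_smul
  obtain ⟨Q, hQ⟩ : ∃ Q : ℝ, Q = ∑ h : G, (c (h • x₀) : ℝ) ^ 2 := ⟨_, rfl⟩
  have hQy : ∀ y, ∑ h : G, (c (h • y) : ℝ) ^ 2 = Q := by
    intro y
    obtain ⟨g, rfl⟩ := MulAction.exists_smul_eq G x₀ y
    rw [hQ]
    refine Fintype.sum_equiv (Equiv.mulRight g) _ _ fun h => ?_
    simp [mul_smul]
  have hQ0 : 0 ≤ Q := hQ ▸ Finset.sum_nonneg fun h _ => sq_nonneg _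
  let s : X → ℝ := fun y => if u y * u x₀ < 0 then -1 else 1
  have hs2 : ∀ y, s y ^ 2 = 1 := by
    intro y
    simp only [s]
    split_ifs <;> norm_num
  have hs : ∀ y, |u y| * |u x₀| * s y = u y * u x₀ := by
    intro y
    rw [← abs_mul]
    simp only [s]
    split_ifs with h
    · rw [abs_of_neg h]; ring
    · rw [abs_of_nonneg (not_lt.1 h)]; ring
  let W : X → ℝ := fun y =>
    |u y| * |u x₀| * ∑ h : G, ((c (h • y) : ℝ) + s y * c (h • x₀)) ^ 2
  have hW0 : ∀ y, 0 ≤ W y := fun y =>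
    mul_nonneg (mul_nonneg (abs_nonneg _) (abs_nonneg _)) (Finset.sum_nonneg fun h _ => sq_nonneg _)
  have hWy : ∀ y, W y = 2 * Q * |u x₀| * |u y| +
      2 * u x₀ * ∑ h : G, (c (h • x₀) : ℝ) * (c (h • y) * u y) := by
    intro y
    have h1 : ∑ h : G, ((c (h • y) : ℝ) + s y * c (h • x₀)) ^ 2 =
        2 * Q + 2 * s y * ∑ h : G, (c (h • x₀) : ℝ) * c (h • y) := by
      have h2 : ∀ h : G, ((c (h • y) : ℝ) + s y * c (h • x₀)) ^ 2 =
          (c (h • y) : ℝ) ^ 2 + (c (h • x₀) : ℝ) ^ 2 + 2 * s y * ((c (h • x₀) : ℝ) * c (h • y)) := by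
        intro h
        linear_combination (c (h • x₀) : ℝ) ^ 2 * hs2 y
      rw [Finset.sum_congr rfl (fun h _ => h2 h), Finset.sum_add_distrib, Finset.sum_add_distrib,
        hQy, hQy, ← Finset.mul_sum]
      ring
    have h3 : ∑ h : G, (c (h • x₀) : ℝ) * (c (h • y) * u y) =
        (∑ h : G, (c (h • x₀) : ℝ) * c (h • y)) * u y := by
      rw [Finset.sum_mul]
      exact Finset.sum_congr rfl fun h _ => by ring
    simp only [W]
    rw [h1, h3]
    linear_combination (2 * ∑ h : G, (c (h • x₀) : ℝ) * c (h • y)) * hs y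
  have hWsum : ∑ y, W y = 2 * Q * |u x₀| * ∑ y, |u y| := by
    rw [Finset.sum_congr rfl (fun y _ => hWy y), Finset.sum_add_distrib, ← Finset.mul_sum,
      ← Finset.mul_sum, Finset.sum_comm]
    have h1 : ∀ h : G, ∑ y, (c (h • x₀) : ℝ) * (c (h • y) * u y) = 0 := by
      intro h
      rw [← Finset.mul_sum, hrel h, mul_zero]
    rw [Finset.sum_congr rfl (fun h _ => h1 h), Finset.sum_const_zero, mul_zero, add_zero]
  have hW1 : W x₀ = 4 * Q * |u x₀| ^ 2 := by
    have h1 : s x₀ = 1 := by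
      simp only [s]
      rw [if_neg]
      exact not_lt.2 (mul_self_nonneg _)
    simp only [W, h1]
    have h2 : ∀ h : G, ((c (h • x₀) : ℝ) + 1 * c (h • x₀)) ^ 2 = 4 * (c (h • x₀) : ℝ) ^ 2 := by
      intro h; ring
    rw [Finset.sum_congr rfl (fun h _ => h2 h), ← Finset.mul_sum, ← hQ]
    ring
  have hW2 : W (inv x₀) = 4 * Q * |u x₀| ^ 2 := by
    have h1 : s (inv x₀) = -1 := by
      simp only [s]
      rw [if_pos]
      rw [hu]
      have := mul_self_pos.2 hx₀
      linarith
    simp only [W, h1]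
    have h2 : ∀ h : G, ((c (h • inv x₀) : ℝ) + -1 * c (h • x₀)) ^ 2 =
        4 * (c (h • x₀) : ℝ) ^ 2 := by
      intro h
      rw [hG, hc.1]
      push_cast
      ring
    rw [Finset.sum_congr rfl (fun h _ => h2 h), ← Finset.mul_sum, ← hQ, hu, abs_neg]
    ring
  have hu0 : 0 < |u x₀| := abs_pos.2 hx₀
  constructor
  · intro y hy1 hy2
    have hy3 : y ≠ x₀ := by
      rintro rfl
      have := mul_self_nonneg (u y)
      linarith
    have h1 : W x₀ + (W (inv x₀) + W y) ≤ ∑ y, W y := by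
      have h2 : ∑ z ∈ ({x₀, inv x₀, y} : Finset X), W z = W x₀ + (W (inv x₀) + W y) := by
        rw [Finset.sum_insert, Finset.sum_insert, Finset.sum_singleton]
        · simpa using Ne.symm hy1
        · simp only [Finset.mem_insert, Finset.mem_singleton, not_or]
          exact ⟨(hne x₀).symm, Ne.symm hy3⟩
      rw [← h2]
      exact Finset.sum_le_sum_of_subset_of_nonneg (Finset.subset_univ _) fun z _ _ => hW0 z
    rw [hWsum, hW1, hW2] at h1
    have h2 : 2 * Q * |u x₀| * ∑ y, |u y| ≤ 2 * Q * |u x₀| * (4 * |u x₀|) :=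
      mul_le_mul_of_nonneg_left hdom (by positivity)
    have h3 : W y = 0 := le_antisymm (by nlinarith) (hW0 y)
    have h4 : |u y| ≠ 0 := by
      rw [abs_ne_zero]
      rintro h
      rw [h, zero_mul] at hy2
      exact lt_irrefl _ hy2
    have h5 : ∑ h : G, ((c (h • y) : ℝ) + s y * c (h • x₀)) ^ 2 = 0 := by
      rcases mul_eq_zero.1 h3 with h | h
      · exact absurd h (mul_ne_zero h4 hu0.ne')
      · exact h
    have h6 := (Finset.sum_eq_zero_iff_of_nonneg (fun h _ => sq_nonneg _)).1 h5 1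
      (Finset.mem_univ _)
    have h7 := pow_eq_zero_iff (two_ne_zero) |>.1 h6
    have h8 : s y = -1 := by
      simp only [s]
      rw [if_pos hy2]
    rw [h8, one_smul, one_smul] at h7
    have h9 : (c y : ℝ) = c x₀ := by linarith
    exact_mod_cast h9
  · rintro ⟨x, hx⟩
    have hQpos : 0 < Q := by
      rw [← hQy x]
      refine Finset.sum_pos' (fun h _ => sq_nonneg _) ⟨1, Finset.mem_univ _, ?_⟩
      rw [one_smul]
      have : (c x : ℝ) ≠ 0 := by exact_mod_cast hx
      positivity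
    have hpair : W x₀ + W (inv x₀) ≤ ∑ y, W y := by
      have h2 : ∑ z ∈ ({x₀, inv x₀} : Finset X), W z = W x₀ + W (inv x₀) := by
        rw [Finset.sum_insert, Finset.sum_singleton]
        simpa using (hne x₀).symm
      rw [← h2]
      exact Finset.sum_le_sum_of_subset_of_nonneg (Finset.subset_univ _) fun z _ _ => hW0 z
    rw [hWsum, hW1, hW2] at hpair
    have h1 : 4 * |u x₀| ≤ ∑ y, |u y| := by
      have h2 : (2 * Q * |u x₀|) * (4 * |u x₀|) ≤ (2 * Q * |u x₀|) * ∑ y, |u y| := by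
        nlinarith
      exact le_of_mul_le_mul_left h2 (by positivity)
    refine ⟨le_antisymm hdom h1, ?_⟩
    by_contra hno
    push Not at hno
    have hz : ∀ y, y ≠ x₀ → y ≠ inv x₀ → u y = 0 := by
      intro y hy1 hy2
      have h2 := hno y hy1 hy2
      have h3 := hno (inv y) (fun h => hy2 (by rw [← h, hinv]))
        (fun h => hy1 (by rw [← hinv y, h, hinv]))
      rw [hu] at h3
      have h4 : u y * u x₀ = 0 := by linarith
      exact (mul_eq_zero.1 h4).resolve_right hx₀
    have h2 : ∑ y, |u y| = |u x₀| + |u (inv x₀)| := by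
      rw [← Finset.sum_pair (hne x₀).symm (f := fun y => |u y|)]
      symm
      refine Finset.sum_subset (Finset.subset_univ _) fun y _ hy => ?_
      simp only [Finset.mem_insert, Finset.mem_singleton, not_or] at hy
      rw [hz y hy.1 hy.2, abs_zero]
    rw [h2, hu, abs_neg] at h1
    linarith

/-- Every entry at which `u` does not vanish is equivalent to `x₀` up to the involution. -/
theorem eqv_or [MulAction.IsPretransitive G X] (hinv : ∀ x, inv (inv x) = x)
    (hne : ∀ x, inv x ≠ x) (hG : ∀ (g : G) (x : X), g • inv x = inv (g • x))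
    (hu : ∀ x, u (inv x) = -u x) (x₀ : X) (hx₀ : u x₀ ≠ 0) (hdom : ∑ x, |u x| ≤ 4 * |u x₀|)
    (y : X) (hy : u y ≠ 0) : Eqv G inv u y x₀ ∨ Eqv G inv u (inv y) x₀ := by
  have key := fun c hc => (dom_eq (G := G) hinv hne hG hu x₀ hx₀ hdom c hc).1
  by_cases h1 : y = x₀
  · exact Or.inl (h1 ▸ Eqv.refl _)
  by_cases h2 : y = inv x₀
  · right
    rw [h2, hinv]
    exact Eqv.refl _
  rcases lt_or_gt_of_ne (mul_ne_zero hy hx₀) with h | h
  · exact Or.inl fun c hc => key c hc y h2 h
  · refine Or.inr fun c hc => key c hc (inv y) (fun h' => h1 ?_) ?_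
    · rw [← hinv y, h', hinv]
    · rw [hu]
      linarith

/-- If there is a nonzero relation, the sums of `u` over the equivalence classes are zero. -/
theorem sum_class [MulAction.IsPretransitive G X] (hinv : ∀ x, inv (inv x) = x)
    (hne : ∀ x, inv x ≠ x) (hG : ∀ (g : G) (x : X), g • inv x = inv (g • x))
    (hu : ∀ x, u (inv x) = -u x) (x₀ : X) (hx₀ : u x₀ ≠ 0) (hdom : ∑ x, |u x| ≤ 4 * |u x₀|)
    (c : X → ℤ) (hc : IsRel G inv u c) (hc0 : ∃ x, c x ≠ 0) (x₁ : X)
    [DecidablePred fun x => Eqv G inv u x x₁] :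
    ∑ x ∈ Finset.univ.filter (fun x => Eqv G inv u x x₁), u x = 0 := by
  classical
  obtain ⟨z, hz⟩ := hc0
  obtain ⟨h, rfl⟩ := MulAction.exists_smul_eq G x₀ z
  have hch := hc.translate hG h
  let f : X → ℝ := fun x => (if Eqv G inv u x x₁ then 1 else 0) -
    (if Eqv G inv u (inv x) x₁ then 1 else 0)
  have hfi : ∀ x, f (inv x) = -f x := by
    intro x
    simp only [f, hinv]
    ring
  have hfe : ∀ x y, Eqv G inv u x y → f x = f y := by
    intro x y hxy
    have h1 : Eqv G inv u x x₁ ↔ Eqv G inv u y x₁ :=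
      ⟨fun h' => hxy.symm.trans h', fun h' => hxy.trans h'⟩
    have h2 : Eqv G inv u (inv x) x₁ ↔ Eqv G inv u (inv y) x₁ :=
      ⟨fun h' => hxy.inv_inv.symm.trans h', fun h' => hxy.inv_inv.trans h'⟩
    simp only [f, h1, h2]
  have hterm : ∀ x, (c (h • x₀) : ℝ) * (f x * u x) = f x₀ * ((c (h • x) : ℝ) * u x) := by
    intro x
    by_cases hx : u x = 0
    · rw [hx, mul_zero, mul_zero, mul_zero, mul_zero]
    rcases eqv_or (G := G) hinv hne hG hu x₀ hx₀ hdom x hx with h1 | h1
    · have h2 : c (h • x) = c (h • x₀) := h1 _ hch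
      rw [hfe _ _ h1, h2]
      ring
    · have h2 : c (h • inv x) = c (h • x₀) := h1 _ hch
      have h3 : c (h • x) = -c (h • x₀) := by
        rw [← h2, hG, hc.1, neg_neg]
      have h4 : f x = -f x₀ := by
        rw [← hfe _ _ h1, hfi, neg_neg]
      rw [h4, h3]
      push_cast
      ring
  have hsum : ∑ x, f x * u x = 0 := by
    have h1 : (c (h • x₀) : ℝ) * ∑ x, f x * u x = 0 := by
      rw [Finset.mul_sum, Finset.sum_congr rfl (fun x _ => hterm x), ← Finset.mul_sum,
        hc.sum_smul h, mul_zero]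
    refine (mul_eq_zero.1 h1).resolve_left ?_
    exact_mod_cast hz
  have hsplit : ∑ x, f x * u x =
      ∑ x, (if Eqv G inv u x x₁ then 1 else 0) * u x -
        ∑ x, (if Eqv G inv u (inv x) x₁ then 1 else 0) * u x := by
    rw [← Finset.sum_sub_distrib]
    exact Finset.sum_congr rfl fun x _ => by simp only [f]; ring
  have hrev : ∑ x, (if Eqv G inv u (inv x) x₁ then 1 else 0) * u x =
      -∑ x, (if Eqv G inv u x x₁ then (1 : ℝ) else 0) * u x := by
    rw [← Finset.sum_neg_distrib]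
    refine Finset.sum_nbij' inv inv (fun _ _ => Finset.mem_univ _)
      (fun _ _ => Finset.mem_univ _) (fun y _ => hinv y) (fun y _ => hinv y) ?_
    intro y _
    rw [hu]
    ring
  rw [hsplit, hrev] at hsum
  have h1 : ∑ x, (if Eqv G inv u x x₁ then (1 : ℝ) else 0) * u x = 0 := by linarith
  rw [Finset.sum_filter]
  refine Eq.trans (Finset.sum_congr rfl fun x _ => ?_) h1
  split_ifs
  · rw [one_mul]
  · rw [zero_mul]

end comb

end Pool.Agent.Helper33Dom
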