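import Mathlib
import Pool.Agent.H194R3.Tate.Mixed
import Pool.Agent.H925R2.DomField
import Pool.Agent.Helper33_dom.Comb

/-!
# Weil numbers with one dominating pair of slopes
-/

set_option autoImplicit false
set_option linter.unusedSectionVars false

namespace Pool.Agent.Helper33Dom

open NumberField Module Pool.Agent.H925R2 Pool.Agent.H485R3 Pool.Agent.H204R3.CM
  Pool.Agent.H868R3.TwoOdd Pool.Agent.H194R3.CM Pool.Agent.H194R3.Tate

/-- Norm type: there is a subfield `E` of `F`, different from `F` and not totally real, such that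
for every embedding of `E` in the algebraic closure of the `p`-adic numbers the normalised
valuations `2 v (τ π) - m`, `τ` running through its extensions to `F`, have the sum zero. For a
Weil `p ^ m`-number this means that the square of the norm of `π` to `E` is a power of `p` times a
root of unity. -/
def NormType (p : ℕ) [Fact p.Prime] (m : ℕ) {F : Type*} [Field F] (π : F) : Prop :=
  ∃ E : Subfield F, E ≠ ⊤ ∧ (∃ a ∈ E, ∃ φ : F →+* ℂ, (φ a).im ≠ 0) ∧
    ∀ τ₁ : F →+* PadicAlgCl p,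
      ∑ᶠ τ ∈ {τ : F →+* PadicAlgCl p | ∀ a ∈ E, τ a = τ₁ a}, (2 * (- Real.logb p ‖τ π‖) - m) = 0

/-- Dominant type: some normalised valuation `2 v (τ₀ π) - m` is not zero and its absolute value is
more than one quarter of the sum of the absolute values of all of them; or it is equal to one
quarter of this sum and `π` is not of norm type. -/
def DominantType (p : ℕ) [Fact p.Prime] (m : ℕ) {F : Type*} [Field F] (π : F) : Prop :=
  ∃ τ₀ : F →+* PadicAlgCl p, 2 * (- Real.logb p ‖τ₀ π‖) ≠ m ∧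
    (∑ᶠ τ : F →+* PadicAlgCl p, |2 * (- Real.logb p ‖τ π‖) - m| <
        4 * |2 * (- Real.logb p ‖τ₀ π‖) - m| ∨
      (∑ᶠ τ : F →+* PadicAlgCl p, |2 * (- Real.logb p ‖τ π‖) - m| =
        4 * |2 * (- Real.logb p ‖τ₀ π‖) - m| ∧ ¬ NormType p m π))

section

variable {F : Type*} [Field F] [NumberField F] [IsCMField F]
  {L : Type*} [Field L] [NumberField L] [IsGalois ℚ L]

/-- The elements of `F` at which equivalent embeddings agree. -/
def fixedSub (u : (F →+* L) → ℝ) : Subfield F where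
  carrier := {a | ∀ x y : F →+* L, Eqv (L ≃ₐ[ℚ] L) cbar u x y → x a = y a}
  mul_mem' := by
    intro a b ha hb x y h
    rw [map_mul, map_mul, ha x y h, hb x y h]
  one_mem' := by
    intro x y h
    rw [map_one, map_one]
  add_mem' := by
    intro a b ha hb x y h
    rw [map_add, map_add, ha x y h, hb x y h]
  zero_mem' := by
    intro x y h
    rw [map_zero, map_zero]
  neg_mem' := by
    intro a ha x y h
    rw [map_neg, map_neg, ha x y h]
  inv_mem' := by
    intro a ha x y h
    rw [map_inv₀, map_inv₀, ha x y h]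

theorem mem_fixedSub {u : (F →+* L) → ℝ} {a : F} :
    a ∈ fixedSub u ↔ ∀ x y : F →+* L, Eqv (L ≃ₐ[ℚ] L) cbar u x y → x a = y a := Iff.rfl

theorem smul_cbar' (g : L ≃ₐ[ℚ] L) (x : F →+* L) : g • cbar x = cbar (g • x) := rfl

/-- Embeddings which agree on this subfield are equivalent. -/
theorem eqv_of_agree (u : (F →+* L) → ℝ) (x y : F →+* L)
    (h : ∀ a ∈ fixedSub u, y a = x a) : Eqv (L ≃ₐ[ℚ] L) cbar u y x := by
  classical
  let G := L ≃ₐ[ℚ] L
  let N : Subgroup G :=
    { carrier := {g | Eqv G cbar u (g • x) x}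
      mul_mem' := by
        intro a b ha hb
        change Eqv G cbar u ((a * b) • x) x
        rw [mul_smul]
        exact (Eqv.smul smul_cbar' hb a).trans ha
      one_mem' := by
        change Eqv G cbar u ((1 : G) • x) x
        rw [one_smul]
        exact Eqv.refl x
      inv_mem' := by
        intro a ha
        change Eqv G cbar u (a⁻¹ • x) x
        have h1 := Eqv.smul smul_cbar' ha a⁻¹
        rw [inv_smul_smul] at h1
        exact h1.symm }
  have hN : ∀ g : G, g ∈ N ↔ Eqv G cbar u (g • x) x := fun g => Iff.rfl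
  obtain ⟨g, rfl⟩ := MulAction.exists_smul_eq G x y
  rw [← hN]
  apply mem_of_fixes_fixed_aux N g
  intro z hz
  let K0 : IntermediateField ℚ L := (RingHom.equivRatAlgHom F L x).fieldRange
  have hzK : z ∈ K0 := by
    rw [← IsGalois.fixedField_fixingSubgroup K0, IntermediateField.mem_fixedField_iff]
    intro k hk
    apply hz
    have h1 : k • x = x := by
      ext a
      exact (IntermediateField.mem_fixingSubgroup_iff _ _).1 hk (x a) ⟨a, rfl⟩
    rw [hN, h1]
    exact Eqv.refl x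
  obtain ⟨a, ha⟩ := hzK
  have ha' : x a = z := ha
  have haE : a ∈ fixedSub u := by
    intro x' y' hxy
    obtain ⟨k, rfl⟩ := MulAction.exists_smul_eq G x x'
    obtain ⟨l, rfl⟩ := MulAction.exists_smul_eq G x y'
    have h1 : k⁻¹ * l ∈ N := by
      rw [hN, mul_smul]
      have h2 := Eqv.smul smul_cbar' hxy k⁻¹
      rw [inv_smul_smul] at h2
      exact h2.symm
    have h2 := hz _ h1
    have h3 : (k • x) a = k z := by rw [← ha']; rfl
    have h4 : (l • x) a = l z := by rw [← ha']; rfl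
    rw [h3, h4]
    have h5 : l z = k ((k⁻¹ * l) z) := by
      rw [AlgEquiv.mul_apply]
      change l z = (k * k⁻¹) (l z)
      rw [mul_inv_cancel, AlgEquiv.one_apply]
    rw [h5, h2]
  have h1 := h a haE
  have h2 : (g • x) a = g z := by rw [← ha']; rfl
  rw [h2, ha'] at h1
  exact h1

variable (p : ℕ) [Fact p.Prime]

/-- **No relations for fields of dominant type.** -/
theorem rel_zero_of_dominant (j : L →+* ℂ) (h : ∀ ψ : F →+* ℂ, ∃ φ : F →+* L, j.comp φ = ψ)
    (e : L →ₐ[ℚ] PadicAlgCl p) (m : ℕ) (π : F)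
    (hweil : ∀ φ : F →+* ℂ, ‖φ π‖ ^ 2 = (((p : ℚ) ^ m : ℚ) : ℝ))
    (hdom : DominantType p m π) (c : (F →+* L) → ℤ) (hc : ∀ φ, c (cbar φ) = -c φ)
    (hrel : ∀ g : L ≃ₐ[ℚ] L, ∑ φ : F →+* L, (c φ : ℝ) *
      dev p ((p : ℚ) ^ m) (e ((g • φ) π)) = 0) (φ : F →+* L) : c φ = 0 := by
  classical
  have hp : p.Prime := Fact.out
  have hp1 : (1 : ℝ) < p := by exact_mod_cast hp.one_lt
  have hlog : 0 < Real.log p := Real.log_pos hp1
  have hq : (0 : ℚ) < (p : ℚ) ^ m := pow_pos (by exact_mod_cast hp.pos) _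
  obtain ⟨τ₀, hτ₀, hdom⟩ := hdom
  let G := L ≃ₐ[ℚ] L
  let u : (F →+* L) → ℝ := fun φ => dev p ((p : ℚ) ^ m) (e (φ π))
  let w : (F →+* PadicAlgCl p) → ℝ := fun τ => 2 * (- Real.logb p ‖τ π‖) - m
  let E : (F →+* L) → (F →+* PadicAlgCl p) := fun φ => (e : L →+* PadicAlgCl p).comp φ
  have hEinj : Function.Injective E := by
    intro φ φ' hh
    ext x
    have h1 : e (φ x) = e (φ' x) := RingHom.congr_fun hh x
    exact (e : L →+* PadicAlgCl p).injective h1
  have hEsurj : Function.Surjective E := fun τ => exists_lift j h e τ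
  have huw : ∀ φ, u φ = -(Real.log p) * w (E φ) := by
    intro φ
    have h1 : - Real.logb p ‖((((p : ℚ) ^ m : ℚ)) : PadicAlgCl p)‖ = m := by
      rw [Pool.Agent.H925R2.norm_pow_cast, Real.logb_inv, Real.logb_pow,
        Real.logb_self_eq_one hp1]
      ring
    simp only [u, w]
    rw [dev_eq_val, h1]
    rfl
  have hu : ∀ φ, u (cbar φ) = -u φ := by
    intro φ
    have h1 := dev_inv p hq.ne' (((e : L →+* PadicAlgCl p).comp φ) π)
      ((map_ne_zero _).2 (weil_ne hq hweil))
    rw [← weil_cbar hq hweil] at h1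
    exact h1
  obtain ⟨x₀, hx₀⟩ := hEsurj τ₀
  have hux₀ : u x₀ ≠ 0 := by
    rw [huw, hx₀]
    exact mul_ne_zero (neg_ne_zero.2 hlog.ne') (sub_ne_zero.2 hτ₀)
  have habs : ∀ φ, |u φ| = Real.log p * |w (E φ)| := by
    intro φ
    rw [huw, abs_mul, abs_neg, abs_of_pos hlog]
  have hfin : ∑ᶠ τ : F →+* PadicAlgCl p, |w τ| = ∑ φ : F →+* L, |w (E φ)| := by
    rw [← finsum_eq_sum_of_fintype, ← finsum_comp E ⟨hEinj, hEsurj⟩]
  have hsum : ∑ φ : F →+* L, |u φ| = Real.log p * ∑ᶠ τ : F →+* PadicAlgCl p, |w τ| := by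
    rw [hfin, Finset.mul_sum]
    exact Finset.sum_congr rfl fun φ _ => habs φ
  have hu0 : |u x₀| = Real.log p * |w τ₀| := by rw [habs, hx₀]
  have hdle : ∑ φ : F →+* L, |u φ| ≤ 4 * |u x₀| := by
    rw [hsum, hu0]
    have h1 : ∑ᶠ τ : F →+* PadicAlgCl p, |w τ| ≤ 4 * |w τ₀| := by
      rcases hdom with h1 | h1
      · exact h1.le
      · exact h1.1.le
    have := mul_le_mul_of_nonneg_left h1 hlog.le
    linarith
  have hrel' : IsRel G cbar u c := ⟨hc, hrel⟩
  by_contra hne
  have hc0 : ∃ φ, c φ ≠ 0 := ⟨φ, hne⟩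
  obtain ⟨heq, y, hy1, hy2, hy3⟩ := (dom_eq (G := G) cbar_cbar cbar_ne smul_cbar' hu x₀ hux₀ hdle c
    hrel').2 hc0
  have hyx : Eqv G cbar u y x₀ := fun c' hc' =>
    (dom_eq (G := G) cbar_cbar cbar_ne smul_cbar' hu x₀ hux₀ hdle c' hc').1 y hy2 hy3
  have hdeq : ∑ᶠ τ : F →+* PadicAlgCl p, |w τ| = 4 * |w τ₀| := by
    rw [hsum, hu0] at heq
    have h1 : Real.log p * ∑ᶠ τ : F →+* PadicAlgCl p, |w τ| = Real.log p * (4 * |w τ₀|) := by
      linarith
    exact mul_left_cancel₀ hlog.ne' h1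
  rcases hdom with h1 | ⟨-, hNT⟩
  · exact absurd hdeq h1.ne
  apply hNT
  have hagree : ∀ x y : F →+* L, (∀ a ∈ fixedSub u, y a = x a) ↔ Eqv G cbar u y x :=
    fun x y => ⟨fun h' => eqv_of_agree u x y h', fun h' a ha => ha y x h'⟩
  refine ⟨fixedSub u, ?_, ?_, ?_⟩
  · intro htop
    apply hy1
    ext a
    exact (hagree x₀ y).2 hyx a (by rw [htop]; trivial)
  · by_contra hall
    push Not at hall
    have h1 : Eqv G cbar u (cbar φ) φ := by
      rw [← hagree]
      intro a ha
      apply j.injective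
      have h2 : j (cbar φ a) = starRingEnd ℂ (j (φ a)) := by
        have h3 := comp_cbar j φ
        have h4 := RingHom.congr_fun h3 a
        exact h4
      rw [h2]
      exact Complex.conj_eq_iff_im.2 (hall a ha (j.comp φ))
    have h2 := h1 c hrel'
    rw [hc] at h2
    omega
  · intro τ₁
    obtain ⟨x₁, rfl⟩ := hEsurj τ₁
    have himg : {τ : F →+* PadicAlgCl p | ∀ a ∈ fixedSub u, τ a = E x₁ a} =
        E '' {x | Eqv G cbar u x x₁} := by
      ext τ
      constructor
      · intro h1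
        obtain ⟨x, rfl⟩ := hEsurj τ
        refine ⟨x, ?_, rfl⟩
        change Eqv G cbar u x x₁
        rw [← hagree]
        intro a ha
        exact (e : L →+* PadicAlgCl p).injective (h1 a ha)
      · rintro ⟨x, h1, rfl⟩ a ha
        change e (x a) = e (x₁ a)
        rw [(hagree x₁ x).2 h1 a ha]
    rw [himg, finsum_mem_image hEinj.injOn, finsum_mem_eq_toFinset_sum]
    have h1 := sum_class (G := G) cbar_cbar cbar_ne smul_cbar' hu x₀ hux₀ hdle c hrel' hc0 x₁
    have h2 : {x | Eqv G cbar u x x₁}.toFinset = Finset.univ.filter (fun x => Eqv G cbar u x x₁) := by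
      ext x
      simp
    rw [h2]
    have h3 : -(Real.log p) * ∑ x ∈ Finset.univ.filter (fun x => Eqv G cbar u x x₁), w (E x) = 0 := by
      rw [← h1, Finset.mul_sum]
      exact Finset.sum_congr rfl fun x _ => (huw x).symm
    exact (mul_eq_zero.1 h3).resolve_left (neg_ne_zero.2 hlog.ne')

end

variable {I : Type*} (p : ℕ) [Fact p.Prime] {K : I → Type*} [∀ i, Field (K i)]
  [∀ i, NumberField (K i)] [∀ i, IsCMField (K i)]

/-- **No relations for mixed families**: every member is of dominant type, of pair type or of flip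
type, and embeddings of different members are cross flipped. -/
theorem norel_of_family [Fintype I] (m : I → ℕ) (π : ∀ i, K i)
    (hweil : ∀ i, ∀ φ : K i →+* ℂ, ‖φ (π i)‖ ^ 2 = (((p : ℚ) ^ m i : ℚ) : ℝ))
    (hπ : ∀ i, DominantType p (m i) (π i) ∨ PairType p (m i) (π i) ∨ FlipType p (m i) (π i))
    (hcross : ∀ i j, i ≠ j → ∀ (φ : K i →+* ℂ) (ψ : K j →+* ℂ), CrossFlipped φ ψ) :
    NoRel p (fun i => (p : ℚ) ^ m i) π := by
  classical
  intro L _ _ j h e c hc hrel
  have hp : p.Prime := Fact.out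
  have hp1 : (1 : ℝ) < p := by exact_mod_cast hp.one_lt
  have hq : ∀ i, (0 : ℚ) < (p : ℚ) ^ m i := fun i => pow_pos (by exact_mod_cast hp.pos) _
  let X := Σ i, (K i →+* L)
  let G := L ≃ₐ[ℚ] L
  have hG : ∀ (g : G) (x : X), g • inj x = inj (g • x) := by
    rintro g ⟨a, φ⟩
    rfl
  obtain ⟨hblock, -⟩ := core_block_real (X := X) (G := G) inj hG (fun x => x.1) (slope p _ π e)
    (slope_inj p hq hweil e)
    (fun x y hxy => by
      have hfl : Flipped (⟨x.1, j.comp x.2⟩ : Σ i, (K i →+* ℂ)) ⟨y.1, j.comp y.2⟩ := by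
        obtain ⟨τ, ⟨h1, h2⟩ | ⟨h1, h2⟩⟩ := hcross x.1 y.1 (fun h' => hxy h'.symm) (j.comp x.2)
          (j.comp y.2)
        · exact ⟨τ, Or.inl ⟨congrArg (Sigma.mk x.1) h1, congrArg (Sigma.mk y.1) h2⟩⟩
        · exact ⟨τ, Or.inr (Or.inl ⟨congrArg (Sigma.mk x.1) h1, congrArg (Sigma.mk y.1) h2⟩)⟩
      obtain ⟨g, hg | hg | hg⟩ := flip_transfer j x y hfl
      · exact ⟨g, Or.inl hg⟩
      · exact ⟨g, Or.inr hg⟩
      · exfalso
        apply hxy
        exact (congrArg Sigma.fst hg.1).symm) c hrel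
  have hblock' : ∀ i, ∀ g : G, ∑ φ : K i →+* L, (c ⟨i, φ⟩ : ℝ) *
      dev p ((p : ℚ) ^ m i) (e ((g • φ) (π i))) = 0 := by
    intro i g
    rw [← hblock i g, Finset.sum_filter, Fintype.sum_sigma, Finset.sum_eq_single i]
    · refine Finset.sum_congr rfl fun φ _ => ?_
      rw [if_pos rfl]
      rfl
    · intro b _ hb
      refine Finset.sum_eq_zero fun φ _ => ?_
      rw [if_neg hb]
    · intro h
      exact absurd (Finset.mem_univ _) h
  rintro ⟨i, φ₀⟩
  rcases hπ i with hd | hpf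
  · exact rel_zero_of_dominant p j (h i) e (m i) (π i) (hweil i) hd (fun φ => c ⟨i, φ⟩)
      (fun φ => hc ⟨i, φ⟩) (hblock' i) φ₀
  · -- the old cases, applied to the family with the single member `i`
    have hold := norel_of_mixed (I := Unit) p (K := fun _ => K i) (fun _ => m i) (fun _ => π i)
      (fun _ => hweil i) (fun _ => hpf) (fun a b hab => absurd (Subsingleton.elim a b) hab)
      L inferInstance inferInstance j (fun _ => h i) e (fun x => c ⟨i, x.2⟩)
      (fun x => hc ⟨i, x.2⟩) (fun g => by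
        rw [Fintype.sum_sigma, Fintype.sum_unique]
        exact hblock' i g) ⟨(), φ₀⟩
    exact hold

end Pool.Agent.Helper33Dom
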