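import Mathlib
import Pool.Agent.H925R2.Ext
import Pool.Agent.Helper33_dom.Comb

/-!
# Products of eigenvectors and blocks of labels
-/

set_option autoImplicit false
set_option linter.unusedSectionVars false

namespace Pool.Agent.Helper33Dom

section lists

variable {Ω V X : Type*} [Field Ω] [AddCommGroup V] [Module Ω V]

/-- The product of the vectors of a list of labelled vectors. -/
def lprod (L : List (V × X)) : ExteriorAlgebra Ω V :=
  (L.map (fun e => ExteriorAlgebra.ι Ω e.1)).prod

theorem lprod_append (L L' : List (V × X)) :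
    lprod (Ω := Ω) (L ++ L') = lprod L * lprod L' := by
  simp [lprod]

theorem lprod_perm {L L' : List (V × X)} (h : L.Perm L') :
    ∃ ε : Ω, lprod (Ω := Ω) L = ε • lprod L' := by
  induction h with
  | nil => exact ⟨1, by rw [one_smul]⟩
  | cons x _ ih =>
    obtain ⟨ε, hε⟩ := ih
    refine ⟨ε, ?_⟩
    simp only [lprod, List.map_cons, List.prod_cons] at hε ⊢
    rw [hε, mul_smul_comm]
  | swap x y l =>
    refine ⟨-1, ?_⟩
    simp only [lprod, List.map_cons, List.prod_cons]
    rw [← mul_assoc, ← mul_assoc]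
    have h : ExteriorAlgebra.ι Ω y.1 * ExteriorAlgebra.ι Ω x.1 =
        - (ExteriorAlgebra.ι Ω x.1 * ExteriorAlgebra.ι Ω y.1) :=
      eq_neg_of_add_eq_zero_left (ExteriorAlgebra.ι_add_mul_swap y.1 x.1)
    rw [h, neg_smul, one_smul, neg_mul]
  | trans _ _ ih1 ih2 =>
    obtain ⟨ε, hε⟩ := ih1
    obtain ⟨ε', hε'⟩ := ih2
    exact ⟨ε * ε', by rw [hε, hε', smul_smul]⟩

/-- Different labels which occur in a list can be moved to the front. -/
theorem extract [DecidableEq X] : ∀ (cs : List X) (L : List (V × X)), cs.Nodup →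
    (∀ c ∈ cs, 0 < (L.map Prod.snd).count c) →
    ∃ T L' : List (V × X), L.Perm (T ++ L') ∧ T.map Prod.snd = cs := by
  intro cs
  induction cs with
  | nil => exact fun L _ _ => ⟨[], L, List.Perm.refl _, rfl⟩
  | cons c cs ih =>
    intro L hnd hpos
    rw [List.nodup_cons] at hnd
    have h1 : c ∈ L.map Prod.snd := by
      rw [← List.count_pos_iff]
      exact hpos c List.mem_cons_self
    obtain ⟨e, he, rfl⟩ := List.mem_map.1 h1
    obtain ⟨L1, L2, rfl⟩ := List.append_of_mem he
    have hperm : (L1 ++ e :: L2).Perm (e :: (L1 ++ L2)) := List.perm_middle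
    obtain ⟨T, L', hT, hTs⟩ := ih (L1 ++ L2) hnd.2 (by
      intro c' hc'
      have h2 := hpos c' (List.mem_cons_of_mem _ hc')
      have h3 : e.2 ≠ c' := by
        rintro rfl
        exact hnd.1 hc'
      have h4 := (hperm.map Prod.snd).count_eq c'
      rw [h4, List.map_cons, List.count_cons_of_ne h3] at h2
      exact h2)
    refine ⟨e :: T, L', ?_, by rw [List.map_cons, hTs]⟩
    exact hperm.trans (List.Perm.cons e hT)

/-- Removing blocks: if every nonzero good vector of multiplicities contains a block, the rest being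
good, then the products of the labelled vectors with a good vector of multiplicities are in every
subalgebra which contains the products over the blocks. -/
theorem lprod_mem [DecidableEq X] (ok : V → X → Prop) (blocks : Set (List X))
    (good : (X → ℕ) → Prop)
    (hgood : ∀ n : X → ℕ, good n → (∃ x, n x ≠ 0) →
      ∃ cs ∈ blocks, cs ≠ [] ∧ cs.Nodup ∧ (∀ c ∈ cs, 0 < n c) ∧
        good (fun x => n x - cs.count x))
    (A : Subalgebra Ω (ExteriorAlgebra Ω V))
    (hA : ∀ T : List (V × X), (∀ e ∈ T, ok e.1 e.2) → T.map Prod.snd ∈ blocks →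
      lprod (Ω := Ω) T ∈ A) :
    ∀ (k : ℕ) (L : List (V × X)), L.length = k → (∀ e ∈ L, ok e.1 e.2) →
      good (fun x => (L.map Prod.snd).count x) → lprod (Ω := Ω) L ∈ A := by
  intro k
  induction k using Nat.strong_induction_on with
  | _ k ih =>
    intro L hLk hok hL
    match L, hLk, hok, hL with
    | [], _, _, _ =>
      simp only [lprod, List.map_nil, List.prod_nil]
      exact Subalgebra.one_mem _
    | e :: L₀, hLk, hok, hL =>
      obtain ⟨cs, hcs, hne, hnd, hpos, hrest⟩ := hgood _ hL ⟨e.2, by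
        rw [List.map_cons, List.count_cons_self]
        omega⟩
      obtain ⟨T, L', hperm, hTs⟩ := extract cs (e :: L₀) hnd hpos
      obtain ⟨ε, hε⟩ := lprod_perm (Ω := Ω) hperm
      rw [hε, lprod_append]
      refine Subalgebra.smul_mem _ (Subalgebra.mul_mem _ ?_ ?_) _
      · refine hA T (fun f hf => hok f (hperm.mem_iff.2 (List.mem_append_left _ hf))) ?_
        rw [hTs]
        exact hcs
      · have hlen := hperm.length_eq
        rw [List.length_append, hLk] at hlen
        have hTl : 0 < T.length := by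
          rw [← List.length_map (f := Prod.snd), hTs]
          exact List.length_pos_iff.2 hne
        refine ih L'.length (by omega) L' rfl
          (fun f hf => hok f (hperm.mem_iff.2 (List.mem_append_right _ hf))) ?_
        have h1 : (fun x => (L'.map Prod.snd).count x) =
            fun x => ((e :: L₀).map Prod.snd).count x - cs.count x := by
          funext x
          rw [(hperm.map Prod.snd).count_eq x, List.map_append, List.count_append, hTs]
          omega
        rw [h1]
        exact hrest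

/-- From products of eigenvectors to arbitrary eigenclasses: the labels are the elements of `X`,
the eigenvalue of a vector with the label `x` is `μ x`. -/
theorem mem_of_labels (F : V →ₗ[Ω] V) (μ : X → Ω)
    (hspan : Submodule.span Ω {v : V | ∃ x, F v = μ x • v} = ⊤) (m s : ℕ) (q : Ω)
    (A : Subalgebra Ω (ExteriorAlgebra Ω V))
    (hA : ∀ (a : Fin m → V) (y : Fin m → X), (∀ k, F (a k) = μ (y k) • a k) →
      (∏ k, μ (y k)) ^ s = q → lprod (Ω := Ω) (List.ofFn fun k => (a k, y k)) ∈ A)
    (x : ExteriorAlgebra Ω V) (hx : x ∈ ⋀[Ω]^m V)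
    (hFx : ExteriorAlgebra.map (F ^ s) x = q • x) : x ∈ A := by
  classical
  set E' : Set V := {v : V | ∃ x, F v = μ x • v} with hs
  have hsp := exteriorPower.ιMulti_span_fixedDegree_of_span_eq_top Ω m V hspan
  set T : Set (ExteriorAlgebra Ω V) :=
    {y | ∃ a : Fin m → V, (∀ j, a j ∈ E') ∧ ExteriorAlgebra.ιMulti Ω m a = y} with hT
  have hTspan : x ∈ Submodule.span Ω T := by
    rw [← hsp] at hx
    refine Submodule.span_mono ?_ hx
    rintro _ ⟨a, ha, rfl⟩
    exact ⟨a, fun j => ha ⟨j, rfl⟩, rfl⟩
  have hpow : ∀ (v : V) (c : Ω), F v = c • v → ∀ r : ℕ, (F ^ r) v = c ^ r • v := by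
    intro v c h r
    induction r with
    | zero => simp
    | succ r ih => rw [pow_succ', Module.End.mul_apply, ih, map_smul, h, smul_smul, pow_succ]
  have hTeig : ∀ a : Fin m → V, ∀ y : Fin m → X, (∀ j, F (a j) = μ (y j) • a j) →
      ExteriorAlgebra.map (F ^ s) (ExteriorAlgebra.ιMulti Ω m a) =
        (∏ j, μ (y j)) ^ s • ExteriorAlgebra.ιMulti Ω m a := by
    intro a y hy
    rw [ExteriorAlgebra.map_apply_ιMulti]
    have : (⇑(F ^ s) ∘ a) = fun j => μ (y j) ^ s • a j := by
      funext j
      exact hpow _ _ (hy j) s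
    rw [this, ← Finset.prod_pow]
    exact AlternatingMap.map_smul_univ _ _ _
  have hmem := Pool.Agent.H925R2.mem_span_eigen (ExteriorAlgebra.map (F ^ s)).toLinearMap T (by
    rintro t ⟨a, ha, rfl⟩
    choose y hy using ha
    exact ⟨_, hTeig a y hy⟩) q x hTspan hFx
  have hle : Submodule.span Ω
      {t ∈ T | (ExteriorAlgebra.map (F ^ s)).toLinearMap t = q • t} ≤
      Subalgebra.toSubmodule A := by
    rw [Submodule.span_le]
    rintro t ⟨⟨a, ha, rfl⟩, ht⟩
    choose y hy using ha
    by_cases h0 : ExteriorAlgebra.ιMulti Ω m a = 0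
    · rw [h0]; exact Submodule.zero_mem _
    have hprod : (∏ j, μ (y j)) ^ s = q := by
      have h1 : (∏ j, μ (y j)) ^ s • ExteriorAlgebra.ιMulti Ω m a =
        q • ExteriorAlgebra.ιMulti Ω m a := by rw [← hTeig a y hy]; exact ht
      exact smul_left_injective Ω h0 h1
    have h2 := hA a y hy hprod
    have h3 : lprod (Ω := Ω) (List.ofFn fun k => (a k, y k)) = ExteriorAlgebra.ιMulti Ω m a := by
      rw [ExteriorAlgebra.ιMulti_apply, lprod, List.map_ofFn]
      rfl
    rw [h3] at h2
    exact h2
  exact hle hmem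

end lists

section comb

variable {X : Type*} [Fintype X] {G : Type*} [Group G] [Fintype G] [MulAction G X]
  {inv : X → X} {u : X → ℝ}

theorem IsRel.sub {c c' : X → ℤ} (hc : IsRel G inv u c) (hc' : IsRel G inv u c') :
    IsRel G inv u (fun x => c x - c' x) := by
  refine ⟨fun x => ?_, fun g => ?_⟩
  · change c (inv x) - c' (inv x) = -(c x - c' x)
    rw [hc.1, hc'.1]
    ring
  · have h1 : ∀ x, (((c x - c' x : ℤ)) : ℝ) * u (g • x) =
        (c x : ℝ) * u (g • x) - (c' x : ℝ) * u (g • x) := by
      intro x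
      push_cast
      ring
    rw [Finset.sum_congr rfl (fun x _ => h1 x), Finset.sum_sub_distrib, hc.2, hc'.2, sub_zero]

open Classical in
/-- The relation given by an equivalence class. -/
theorem isRel_class [MulAction.IsPretransitive G X] (hinv : ∀ x, inv (inv x) = x)
    (hne : ∀ x, inv x ≠ x) (hG : ∀ (g : G) (x : X), g • inv x = inv (g • x))
    (hu : ∀ x, u (inv x) = -u x) (x₀ : X) (hx₀ : u x₀ ≠ 0) (hdom : ∑ x, |u x| ≤ 4 * |u x₀|)
    (c : X → ℤ) (hc : IsRel G inv u c) (hc0 : ∃ x, c x ≠ 0) (x₁ : X) :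
    IsRel G inv u (fun x => (if Eqv G inv u x x₁ then 1 else 0) -
      (if Eqv G inv u (inv x) x₁ then 1 else 0)) := by
  refine ⟨fun x => ?_, fun g => ?_⟩
  · simp only [hinv]
    ring
  have h0 : ∑ x ∈ Finset.univ.filter (fun x => Eqv G inv u x x₁), u (g • x) = 0 := by
    rw [← sum_class (G := G) hinv hne hG hu x₀ hx₀ hdom c hc hc0 (g • x₁)]
    refine Finset.sum_nbij' (fun x => g • x) (fun x => g⁻¹ • x) ?_ ?_ ?_ ?_ ?_
    · intro x hx
      rw [Finset.mem_filter] at hx ⊢
      exact ⟨Finset.mem_univ _, hx.2.smul hG g⟩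
    · intro x hx
      rw [Finset.mem_filter] at hx ⊢
      refine ⟨Finset.mem_univ _, ?_⟩
      have h1 := hx.2.smul hG g⁻¹
      rw [inv_smul_smul] at h1
      exact h1
    · intro x _
      simp
    · intro x _
      simp
    · intro x _
      rfl
  have h1 : ∀ x, (((if Eqv G inv u x x₁ then 1 else 0) -
      (if Eqv G inv u (inv x) x₁ then 1 else 0) : ℤ) : ℝ) * u (g • x) =
      (if Eqv G inv u x x₁ then u (g • x) else 0) -
        (if Eqv G inv u (inv x) x₁ then u (g • x) else 0) := by
    intro x
    split_ifs <;> simp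
  rw [Finset.sum_congr rfl (fun x _ => h1 x), Finset.sum_sub_distrib, ← Finset.sum_filter,
    h0, zero_sub, neg_eq_zero]
  have h2 : ∑ x, (if Eqv G inv u (inv x) x₁ then u (g • x) else 0) =
      -∑ x, (if Eqv G inv u x x₁ then u (g • x) else 0) := by
    rw [← Finset.sum_neg_distrib]
    refine Finset.sum_nbij' inv inv (fun _ _ => Finset.mem_univ _)
      (fun _ _ => Finset.mem_univ _) (fun y _ => hinv y) (fun y _ => hinv y) ?_
    intro y _
    rw [hG, hu]
    split_ifs <;> simp
  rw [h2, ← Finset.sum_filter, h0, neg_zero]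

end comb

end Pool.Agent.Helper33Dom
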