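import Mathlib
import Pool.Agent.H194R3.Tate.Num
import Pool.Agent.Helper33_dom.Field

/-!
# Exotic Tate classes of Weil numbers of norm type
-/

set_option autoImplicit false
set_option linter.unusedSectionVars false

namespace Pool.Agent.Helper33Dom

open NumberField Module Pool.Agent.H925R2 Pool.Agent.H485R3 Pool.Agent.H204R3.CM
  Pool.Agent.H868R3.TwoOdd Pool.Agent.H194R3.CM Pool.Agent.H194R3.Tate Set Set.powersetCard

/-- A wedge product of basis vectors which is not invariant under a diagonal map `D` that fixes the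
elements `y` of degree two with `F y = q y`. -/
theorem family_not_mem_adjoin {Ω V : Type*} [Field Ω] [AddCommGroup V] [Module Ω V] {d : ℕ}
    (b : Basis (Fin d) Ω V) (F D : V →ₗ[Ω] V) (μ δ : Fin d → Ω)
    (hμ : ∀ i, F (b i) = μ i • b i) (hδ : ∀ i, D (b i) = δ i • b i) (q : Ω)
    (hpair : ∀ i k, μ i * μ k = q → δ i * δ k = 1) (k : ℕ) (S : powersetCard (Fin d) k)
    (hS : ∏ i ∈ S.val, δ i ≠ 1) :
    (exteriorPower.ιMulti_family Ω k b S : ExteriorAlgebra Ω V) ∉ Algebra.adjoin Ω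
      {y : ExteriorAlgebra Ω V | y ∈ ⋀[Ω]^2 V ∧ ExteriorAlgebra.map F y = q • y} := by
  classical
  intro hmem
  have hfix : ∀ y : ExteriorAlgebra Ω V, y ∈ Algebra.adjoin Ω
      {y : ExteriorAlgebra Ω V | y ∈ ⋀[Ω]^2 V ∧ ExteriorAlgebra.map F y = q • y} →
      ExteriorAlgebra.map D y = y := by
    intro y hy
    induction hy using Algebra.adjoin_induction with
    | mem y hy =>
      obtain ⟨hy2, hyF⟩ := hy
      let B := b.exteriorPower 2
      let yy : ⋀[Ω]^2 V := ⟨y, hy2⟩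
      have hmapG : ∀ (G : V →ₗ[Ω] V) (γ : Fin d → Ω), (∀ i, G (b i) = γ i • b i) →
          ∀ J, B.coord J (exteriorPower.map 2 G yy) = (∏ i ∈ J.val, γ i) * B.coord J yy := by
        intro G γ hγ J
        have h2 : (B.coord J) ∘ₗ (exteriorPower.map 2 G) = (∏ i ∈ J.val, γ i) • B.coord J := by
          apply B.ext
          intro J'
          have h1 := map_family G b γ hγ J'
          have h3 : exteriorPower.map 2 G (B J') = (∏ i ∈ J'.val, γ i) • B J' := by
            simp only [B, exteriorPower.basis_apply]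
            exact h1
          rw [LinearMap.comp_apply, h3, map_smul, LinearMap.smul_apply, Basis.coord_apply,
            Basis.repr_self, Finsupp.single_apply]
          by_cases h : J' = J
          · rw [h]
          · rw [if_neg h, smul_zero, smul_zero]
        exact LinearMap.congr_fun h2 yy
      have hF' : exteriorPower.map 2 F yy = q • yy := by
        apply Subtype.ext
        rw [map_coe']
        exact hyF
      have hD' : exteriorPower.map 2 D yy = yy := by
        apply B.ext_elem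
        intro J
        change B.coord J (exteriorPower.map 2 D yy) = B.coord J yy
        rw [hmapG D δ hδ J]
        by_cases h0 : B.coord J yy = 0
        · rw [h0, mul_zero]
        · have h1 := hmapG F μ hμ J
          rw [hF', map_smul, smul_eq_mul] at h1
          have h2 : ∏ i ∈ J.val, μ i = q := (mul_right_cancel₀ h0 h1).symm
          obtain ⟨i, k, hik, hJ⟩ := Finset.card_eq_two.1 J.prop
          have hJ' : J.val = {i, k} := hJ
          rw [hJ', Finset.prod_pair hik] at h2 ⊢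
          rw [hpair i k h2, one_mul]
      have h3 := congrArg Subtype.val hD'
      rw [map_coe'] at h3
      exact h3
    | algebraMap r => exact AlgHom.commutes _ r
    | add x y _ _ hx hy => rw [map_add, hx, hy]
    | mul x y _ _ hx hy => rw [map_mul, hx, hy]
  have h1 := hfix _ hmem
  rw [← map_coe'] at h1
  have h2 := map_family D b δ hδ S
  have h3 : (∏ i ∈ S.val, δ i) • exteriorPower.ιMulti_family Ω k b S =
      exteriorPower.ιMulti_family Ω k b S := by
    rw [← h2]
    exact Subtype.ext h1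
  have h4 : (∏ i ∈ S.val, δ i) • (b.exteriorPower k) S = (b.exteriorPower k) S := by
    rw [exteriorPower.basis_apply]
    exact h3
  have h5 := congrArg (fun v => (b.exteriorPower k).repr v S) h4
  simp only [map_smul, Finsupp.smul_apply, Basis.repr_self, Finsupp.single_eq_same, smul_eq_mul,
    mul_one] at h5
  exact hS h5

section

variable {F : Type*} [Field F] [NumberField F] [IsCMField F]
  {L : Type*} [Field L] [NumberField L] [IsGalois ℚ L] (p : ℕ) [Fact p.Prime]

/-- A power of the square of the norm of a Weil number to the subfield `E` is a power of `p`, if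
the sums of the normalised valuations are zero. -/
theorem norm_pow_eq (j : L →+* ℂ) (h : ∀ ψ : F →+* ℂ, ∃ φ : F →+* L, j.comp φ = ψ)
    (e : L →ₐ[ℚ] PadicAlgCl p) (m : ℕ) (π : F) (hint : IsIntegral ℤ π)
    (hweil : ∀ φ : F →+* ℂ, ‖φ π‖ ^ 2 = (((p : ℚ) ^ m : ℚ) : ℝ)) (E : Subfield F)
    (hE : ∀ τ₁ : F →+* PadicAlgCl p,
      ∑ᶠ τ ∈ {τ : F →+* PadicAlgCl p | ∀ a ∈ E, τ a = τ₁ a}, (2 * (- Real.logb p ‖τ π‖) - m) = 0)
    (B : Finset (F →+* L)) (x₁ : F →+* L) (hB : ∀ x, x ∈ B ↔ ∀ a ∈ E, x a = x₁ a) :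
    ∃ s : ℕ, 0 < s ∧ (∏ x ∈ B, x π) ^ (2 * s) = ((p : L) ^ m) ^ (B.card * s) := by
  classical
  have hp : p.Prime := Fact.out
  have hp1 : (1 : ℝ) < p := by exact_mod_cast hp.one_lt
  have hp0 : (p : L) ≠ 0 := by exact_mod_cast hp.ne_zero
  have hq : (0 : ℚ) < (p : ℚ) ^ m := pow_pos (by exact_mod_cast hp.pos) _
  have hlog : 0 < Real.log p := Real.log_pos hp1
  have hπ0 : π ≠ 0 := weil_ne hq hweil
  have h0 : ∀ χ : F →+* L, χ π ≠ 0 := fun χ => (map_ne_zero χ).2 hπ0
  have hI : ∀ χ : F →+* L, IsIntegral ℤ (χ π) := fun χ => map_isIntegral_int χ hint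
  let G := L ≃ₐ[ℚ] L
  let u : (F →+* L) → ℝ := fun φ => dev p ((p : ℚ) ^ m) (e (φ π))
  let w : (F →+* PadicAlgCl p) → ℝ := fun τ => 2 * (- Real.logb p ‖τ π‖) - m
  let Em : (F →+* L) → (F →+* PadicAlgCl p) := fun φ => (e : L →+* PadicAlgCl p).comp φ
  have hEinj : Function.Injective Em := by
    intro φ φ' hh
    ext x
    have h1 : e (φ x) = e (φ' x) := RingHom.congr_fun hh x
    exact (e : L →+* PadicAlgCl p).injective h1
  have hEsurj : Function.Surjective Em := fun τ => exists_lift j h e τ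
  have huw : ∀ φ, u φ = -(Real.log p) * w (Em φ) := by
    intro φ
    have h1 : - Real.logb p ‖((((p : ℚ) ^ m : ℚ)) : PadicAlgCl p)‖ = m := by
      rw [Pool.Agent.H925R2.norm_pow_cast, Real.logb_inv, Real.logb_pow,
        Real.logb_self_eq_one hp1]
      ring
    simp only [u, w]
    rw [dev_eq_val, h1]
    rfl
  -- the sums over the translates of `B`
  have hsum : ∀ g : G, ∑ x ∈ B, u (g • x) = 0 := by
    intro g
    have himg : {τ : F →+* PadicAlgCl p | ∀ a ∈ E, τ a = Em (g • x₁) a} =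
        (fun x => Em (g • x)) '' (B : Set (F →+* L)) := by
      ext τ
      constructor
      · intro h1
        obtain ⟨y, rfl⟩ := hEsurj τ
        refine ⟨g⁻¹ • y, ?_, by simp only [smul_inv_smul]⟩
        rw [Finset.mem_coe, hB]
        intro a ha
        have h2 : y a = (g • x₁) a := (e : L →+* PadicAlgCl p).injective (h1 a ha)
        change g⁻¹ (y a) = x₁ a
        rw [h2]
        change (g⁻¹ * g) (x₁ a) = x₁ a
        rw [inv_mul_cancel, AlgEquiv.one_apply]
      · rintro ⟨x, h1, rfl⟩ a ha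
        rw [Finset.mem_coe, hB] at h1
        change e (g (x a)) = e (g (x₁ a))
        rw [h1 a ha]
    have h1 := hE (Em (g • x₁))
    rw [himg, finsum_mem_image (fun x _ y _ hxy => by
      have h2 := hEinj hxy
      exact smul_left_cancel g h2), finsum_mem_coe_finset] at h1
    have h2 : ∑ x ∈ B, u (g • x) = -(Real.log p) * ∑ x ∈ B, w (Em (g • x)) := by
      rw [Finset.mul_sum]
      exact Finset.sum_congr rfl fun x _ => huw _
    rw [h2]
    have h3 : ∑ x ∈ B, w (Em (g • x)) = 0 := h1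
    rw [h3, mul_zero]
  have hcast : ∀ (l : ℕ) [Fact l.Prime], ((((p : ℚ) ^ m : ℚ)) : PadicAlgCl l) =
      (p : PadicAlgCl l) ^ m := by
    intro l _
    push_cast
    rfl
  let N : L := ∏ x ∈ B, x π
  have hN0 : N ≠ 0 := Finset.prod_ne_zero_iff.2 fun x _ => h0 x
  let z : L := N ^ 2 / ((p : L) ^ m) ^ B.card
  have hunit : ∀ (l : ℕ) [Fact l.Prime], l ≠ p → ∀ (e' : L →ₐ[ℚ] PadicAlgCl l) (χ : F →+* L),
      ‖e' (χ π)‖ = 1 := by
    intro l _ hlp e' χ
    have h1 : ‖e' (χ π)‖ ≤ 1 := norm_le_one_of_isIntegral l _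
      (map_isIntegral_int (e' : L →+* PadicAlgCl l) (hI χ))
    have h2 : ‖e' (cbar χ π)‖ ≤ 1 :=
      norm_le_one_of_isIntegral l _ (map_isIntegral_int (e' : L →+* PadicAlgCl l) (hI (cbar χ)))
    have h3 : e' (χ π) * e' (cbar χ π) = (p : PadicAlgCl l) ^ m := by
      rw [← map_mul, weil_cbar hq hweil, mul_div_cancel₀ _ (h0 χ)]
      rw [map_ratCast]
      exact hcast l
    have h4 : ‖e' (χ π)‖ * ‖e' (cbar χ π)‖ = 1 := by
      rw [← norm_mul, h3, norm_prime_pow_ne l p hp hlp]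
    nlinarith [norm_nonneg (e' (χ π)), norm_nonneg (e' (cbar χ π))]
  have hzint : IsIntegral ℤ z := by
    apply isIntegral_of_norm_le
    intro l hl e'
    refine le_of_eq ?_
    have h1 : ‖e' z‖ = (∏ x ∈ B, ‖e' (x π)‖) ^ 2 / ‖((p : PadicAlgCl l) ^ m)‖ ^ B.card := by
      simp only [z, N]
      rw [map_div₀, map_pow, map_pow, map_pow, map_prod, map_natCast, norm_div, norm_pow, norm_pow,
        norm_prod]
    rw [h1]
    by_cases hlp : l = p
    · subst hlp
      obtain ⟨g, hg⟩ := exists_gal e e'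
      have hpos : ∀ x : F →+* L, 0 < ‖e' (x π)‖ := fun x =>
        norm_pos_iff.2 ((map_ne_zero _).2 (h0 x))
      have hqpos : 0 < ‖((l : PadicAlgCl l) ^ m)‖ := by
        rw [norm_pos_iff]
        exact pow_ne_zero _ (by exact_mod_cast hp.ne_zero)
      have h2 : Real.log ((∏ x ∈ B, ‖e' (x π)‖) ^ 2 / ‖((l : PadicAlgCl l) ^ m)‖ ^ B.card) = 0 := by
        rw [Real.log_div (pow_ne_zero _ (Finset.prod_ne_zero_iff.2 fun x _ => (hpos x).ne'))
          (pow_ne_zero _ hqpos.ne'), Real.log_pow, Real.log_pow,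
          Real.log_prod (fun x _ => (hpos x).ne')]
        have h3 := hsum g
        have h4 : ∀ x : F →+* L, u (g • x) = 2 * Real.log ‖e' (x π)‖ -
            Real.log ‖((l : PadicAlgCl l) ^ m)‖ := by
          intro x
          rw [hg, ← hcast l]
          rfl
        rw [Finset.sum_congr rfl (fun x _ => h4 x), Finset.sum_sub_distrib, ← Finset.mul_sum,
          Finset.sum_const, nsmul_eq_mul] at h3
        push_cast
        exact h3
      have h3 : 0 < (∏ x ∈ B, ‖e' (x π)‖) ^ 2 / ‖((l : PadicAlgCl l) ^ m)‖ ^ B.card :=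
        div_pos (pow_pos (Finset.prod_pos fun x _ => hpos x) _) (pow_pos hqpos _)
      exact Real.eq_one_of_pos_of_log_eq_zero h3 h2
    · rw [Finset.prod_congr rfl (fun x _ => hunit l hlp e' x), Finset.prod_const_one,
        norm_prime_pow_ne l p hp hlp]
      simp
  obtain ⟨s, hs, hs1⟩ := pow_eq_one_of_norm z hzint (fun τ => by
    have h2 : ∀ x : F →+* L, ‖τ (x π)‖ ^ 2 = (p : ℝ) ^ m := by
      intro x
      have h3 := hweil ((τ : L →+* ℂ).comp x)
      rw [Rat.cast_pow, Rat.cast_natCast] at h3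
      exact h3
    have h1 : ‖τ z‖ = (∏ x ∈ B, ‖τ (x π)‖ ^ 2) / ((p : ℝ) ^ m) ^ B.card := by
      simp only [z, N]
      rw [map_div₀, map_pow, map_pow, map_pow, map_prod, map_natCast, norm_div, norm_pow, norm_pow,
        norm_pow, norm_prod, Finset.prod_pow, Complex.norm_natCast]
    rw [h1, Finset.prod_congr rfl (fun x _ => h2 x), Finset.prod_const, div_self]
    exact pow_ne_zero _ (pow_ne_zero _ (by positivity)))
  refine ⟨s, hs, ?_⟩
  have h1 : z ^ s * (((p : L) ^ m) ^ B.card) ^ s = (N ^ 2) ^ s := by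
    rw [← mul_pow]
    simp only [z]
    rw [div_mul_cancel₀ _ (pow_ne_zero _ (pow_ne_zero _ hp0))]
  rw [hs1, one_mul] at h1
  rw [pow_mul, pow_mul]
  exact h1.symm

/-- **Exotic Tate classes.** For a Weil number of norm type there is a diagonalisable endomorphism
with eigenvalues among its conjugates, and a Tate class over some extension of the base field which
is not a polynomial in the Tate classes of degree two. -/
theorem exists_exotic (a : ℕ) (π : F) (hint : IsIntegral ℤ π)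
    (hgen : IntermediateField.adjoin ℚ {π} = ⊤)
    (hweil : ∀ φ : F →+* ℂ, ‖φ π‖ ^ 2 = (((p : ℚ) ^ a : ℚ) : ℝ)) (hN : NormType p a π)
    (Ω : Type*) [Field Ω] [IsAlgClosed Ω] [CharZero Ω] :
    ∃ (d : ℕ) (Φ : (Fin d → Ω) →ₗ[Ω] (Fin d → Ω)),
      Submodule.span Ω {v : Fin d → Ω | ∃ σ : F →+* Ω, Φ v = σ π • v} = ⊤ ∧
      ∃ (m s : ℕ), 0 < s ∧ ∃ x ∈ ⋀[Ω]^(2 * m) (Fin d → Ω),
        ExteriorAlgebra.map (Φ ^ s) x = (((p : Ω) ^ a) ^ m) ^ s • x ∧
        x ∉ Algebra.adjoin Ω {y : ExteriorAlgebra Ω (Fin d → Ω) |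
          y ∈ ⋀[Ω]^2 (Fin d → Ω) ∧ ExteriorAlgebra.map Φ y = (p : Ω) ^ a • y} := by
  classical
  have hp : p.Prime := Fact.out
  have hq : (0 : ℚ) < (p : ℚ) ^ a := pow_pos (by exact_mod_cast hp.pos) _
  obtain ⟨L, hL1, hL2, j, h'⟩ := exists_galois (fun _ : Unit => F)
  have h := h' ()
  let e : L →ₐ[ℚ] PadicAlgCl p := IsAlgClosed.lift
  let jΩ : L →ₐ[ℚ] Ω := IsAlgClosed.lift
  obtain ⟨E, hEtop, ⟨a₀, ha₀, φ₀, hφ₀⟩, hE⟩ := hN
  obtain ⟨x₁, hx₁⟩ := h φ₀
  let B : Finset (F →+* L) := Finset.univ.filter (fun x => ∀ b ∈ E, x b = x₁ b)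
  have hB : ∀ x, x ∈ B ↔ ∀ b ∈ E, x b = x₁ b := by
    intro x
    simp [B]
  have hx₁B : x₁ ∈ B := (hB x₁).2 fun b _ => rfl
  have hBc : ∀ x ∈ B, cbar x ∉ B := by
    intro x hx hcx
    rw [hB] at hx hcx
    apply hφ₀
    have h1 : j (cbar x a₀) = starRingEnd ℂ (j (x a₀)) := RingHom.congr_fun (comp_cbar j x) a₀
    rw [hcx a₀ ha₀, hx a₀ ha₀] at h1
    have h2 : j (x₁ a₀) = φ₀ a₀ := RingHom.congr_fun hx₁ a₀
    rw [h2] at h1
    exact Complex.conj_eq_iff_im.1 h1.symm
  obtain ⟨s, hs, hrel⟩ := norm_pow_eq p j h e a π hint hweil E hE B x₁ hB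
  let ι := (F →+* L) × Fin 2
  let d := Fintype.card ι
  let ε : Fin d ≃ ι := (Fintype.equivFin ι).symm
  let μ : Fin d → Ω := fun i => jΩ ((ε i).1 π)
  let D0 : (F →+* L) → Ω := fun x => if x ∈ B then 2 else if cbar x ∈ B then 2⁻¹ else 1
  let δ : Fin d → Ω := fun i => D0 (ε i).1
  let diag : (Fin d → Ω) → ((Fin d → Ω) →ₗ[Ω] (Fin d → Ω)) := fun γ =>
    LinearMap.pi fun i => γ i • LinearMap.proj i
  have hdiag : ∀ γ : Fin d → Ω, ∀ i, diag γ (Pi.basisFun Ω (Fin d) i) =
      γ i • Pi.basisFun Ω (Fin d) i := by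
    intro γ i
    ext k
    simp only [diag, LinearMap.pi_apply, LinearMap.smul_apply, LinearMap.proj_apply,
      Pi.basisFun_apply, Pi.smul_apply, smul_eq_mul, Pi.single_apply]
    split_ifs with hki
    · rw [hki]
    · rw [mul_zero, mul_zero]
  have hpow : ∀ i, (diag μ ^ s) (Pi.basisFun Ω (Fin d) i) =
      μ i ^ s • Pi.basisFun Ω (Fin d) i := fun i => pow_eigen' _ _ _ (hdiag μ i) s
  have h20 : (2 : Ω) ≠ 0 := two_ne_zero
  have hD0 : ∀ x : F →+* L, D0 x * D0 (cbar x) = 1 := by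
    intro x
    simp only [D0, cbar_cbar]
    by_cases h1 : x ∈ B
    · rw [if_pos h1, if_neg (hBc x h1), if_pos h1, mul_inv_cancel₀ h20]
    · by_cases h2 : cbar x ∈ B
      · rw [if_neg h1, if_pos h2, if_pos h2, inv_mul_cancel₀ h20]
      · rw [if_neg h1, if_neg h2, if_neg h2, if_neg h1, mul_one]
  have hpair : ∀ i k, μ i * μ k = (p : Ω) ^ a → δ i * δ k = 1 := by
    intro i k hik
    have h1 : (ε k).1 = cbar (ε i).1 := by
      apply hom_ext_of_gen hgen
      apply (jΩ : L →+* Ω).injective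
      change jΩ ((ε k).1 π) = jΩ (cbar (ε i).1 π)
      have h2 : jΩ ((ε i).1 π) ≠ 0 := (map_ne_zero _).2 ((map_ne_zero _).2 (weil_ne hq hweil))
      apply mul_left_cancel₀ h2
      rw [weil_cbar hq hweil, ← map_mul jΩ ((ε i).1 π) (_ / _),
        mul_div_cancel₀ _ ((map_ne_zero _).2 (weil_ne hq hweil)), map_ratCast]
      push_cast
      exact hik
    change D0 (ε i).1 * D0 (ε k).1 = 1
    rw [h1, hD0]
  let S : powersetCard (Fin d) (2 * B.card) :=
    ⟨(B ×ˢ (Finset.univ : Finset (Fin 2))).map ε.symm.toEmbedding, by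
      change Finset.card _ = _
      rw [Finset.card_map, Finset.card_product, Finset.card_univ, Fintype.card_fin, mul_comm]⟩
  have hprodS : ∀ f : (F →+* L) → Ω, ∏ i ∈ S.val, f (ε i).1 = (∏ x ∈ B, f x) ^ 2 := by
    intro f
    change ∏ i ∈ (B ×ˢ (Finset.univ : Finset (Fin 2))).map ε.symm.toEmbedding, f (ε i).1 = _
    rw [Finset.prod_map, Finset.prod_product]
    simp only [Equiv.coe_toEmbedding, Equiv.apply_symm_apply, Finset.prod_const, Finset.card_univ,
      Fintype.card_fin]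
    rw [Finset.prod_pow]
  refine ⟨d, diag μ, ?_, B.card, s, hs,
    (exteriorPower.ιMulti_family Ω (2 * B.card) (Pi.basisFun Ω (Fin d)) S :
      ExteriorAlgebra Ω (Fin d → Ω)), (exteriorPower.ιMulti_family Ω _ _ S).2, ?_, ?_⟩
  · rw [eq_top_iff, ← (Pi.basisFun Ω (Fin d)).span_eq]
    apply Submodule.span_mono
    rintro _ ⟨i, rfl⟩
    exact ⟨(jΩ : L →+* Ω).comp (ε i).1, hdiag μ i⟩
  · have h1 := map_family (diag μ ^ s) (Pi.basisFun Ω (Fin d)) (fun i => μ i ^ s) hpow S
    have h2 : ∏ i ∈ S.val, μ i ^ s = (((p : Ω) ^ a) ^ B.card) ^ s := by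
      have h3 := hprodS (fun x => jΩ (x π) ^ s)
      change ∏ i ∈ S.val, μ i ^ s = _ at h3
      rw [h3, Finset.prod_pow, ← pow_mul, mul_comm s 2, ← map_prod, ← map_pow, hrel, map_pow,
        map_pow, map_natCast, pow_mul]
    rw [h2] at h1
    have h3 := congrArg Subtype.val h1
    rw [map_coe'] at h3
    exact h3
  · apply family_not_mem_adjoin (Pi.basisFun Ω (Fin d)) (diag μ) (diag δ) μ δ (hdiag μ) (hdiag δ)
      _ hpair
    have h1 : ∏ i ∈ S.val, δ i = ((2 : Ω) ^ B.card) ^ 2 := by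
      have h3 := hprodS D0
      change ∏ i ∈ S.val, δ i = _ at h3
      rw [h3]
      congr 1
      rw [Finset.prod_congr rfl (fun x hx => (if_pos hx : D0 x = 2)), Finset.prod_const]
    rw [h1, ← pow_mul]
    have h2 : B.card ≠ 0 := Finset.card_ne_zero_of_mem hx₁B
    have h3 : ((2 : ℕ) ^ (B.card * 2) : ℕ) ≠ 1 := by
      have h4 : 1 < 2 ^ (B.card * 2) := Nat.one_lt_two_pow (by omega)
      omega
    intro h4
    apply h3
    exact_mod_cast h4

end

end Pool.Agent.Helper33Dom
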