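import Mathlib
import Pool.Agent.Helper33_dom.Blocks
import Pool.Agent.Helper33_dom.Exotic

/-!
# All Tate classes for Weil numbers with dominating slopes
-/

set_option autoImplicit false
set_option linter.unusedSectionVars false

namespace Pool.Agent.Helper33Dom

open NumberField Module Pool.Agent.H925R2 Pool.Agent.H485R3 Pool.Agent.H204R3.CM
  Pool.Agent.H868R3.TwoOdd Pool.Agent.H194R3.CM Pool.Agent.H194R3.Tate

/-- The subfield `E` of `F` is different from `F`, not totally real, and for every embedding of `E`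
in the algebraic closure of the `p`-adic numbers the normalised valuations `2 v (τ π) - m`, `τ`
running through its extensions to `F`, have the sum zero. For a Weil `p ^ m`-number this means that
the square of the norm of `π` to `E` is a power of `p` times a root of unity. -/
def NormSub (p : ℕ) [Fact p.Prime] (m : ℕ) {F : Type*} [Field F] (π : F) (E : Subfield F) : Prop :=
  E ≠ ⊤ ∧ (∃ a ∈ E, ∃ φ : F →+* ℂ, (φ a).im ≠ 0) ∧
    ∀ τ₁ : F →+* PadicAlgCl p,
      ∑ᶠ τ ∈ {τ : F →+* PadicAlgCl p | ∀ a ∈ E, τ a = τ₁ a}, (2 * (- Real.logb p ‖τ π‖) - m) = 0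

/-- Dominating slopes: some normalised valuation `2 v (τ₀ π) - m` is not zero, and its absolute
value is at least one quarter of the sum of the absolute values of all of them. -/
def DominantSlopes (p : ℕ) [Fact p.Prime] (m : ℕ) {F : Type*} [Field F] (π : F) : Prop :=
  ∃ τ₀ : F →+* PadicAlgCl p, 2 * (- Real.logb p ‖τ₀ π‖) ≠ m ∧
    ∑ᶠ τ : F →+* PadicAlgCl p, |2 * (- Real.logb p ‖τ π‖) - m| ≤
      4 * |2 * (- Real.logb p ‖τ₀ π‖) - m|

/-- The norm classes of the endomorphism `Φ` given by the subfield `E`: the wedge products of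
eigenvectors of `Φ`, one with the eigenvalue `σ π` for every embedding `σ` of `F` which extends a
given embedding of `E`. They have the degree `[F : E]`. -/
def normClasses {F Ω V : Type*} [Field F] [Field Ω] [AddCommGroup V] [Module Ω V]
    (Φ : V →ₗ[Ω] V) (π : F) (E : Subfield F) : Set (ExteriorAlgebra Ω V) :=
  {y | ∃ (σ₁ : F →+* Ω) (r : ℕ) (σ : Fin r → (F →+* Ω)) (v : Fin r → V),
    Function.Injective σ ∧ (∀ τ : F →+* Ω, (∃ k, σ k = τ) ↔ ∀ a ∈ E, τ a = σ₁ a) ∧
      (∀ k, Φ (v k) = σ k π • v k) ∧ y = ExteriorAlgebra.ιMulti Ω r v}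

section

variable {F : Type*} [Field F] [NumberField F] [IsCMField F]
  {L : Type*} [Field L] [NumberField L] [IsGalois ℚ L] (p : ℕ) [Fact p.Prime]

/-- The deviations of the slopes, as a function on the embeddings. -/
noncomputable def uvec (e : L →ₐ[ℚ] PadicAlgCl p) (m : ℕ) (π : F) (φ : F →+* L) : ℝ :=
  dev p ((p : ℚ) ^ m) (e (φ π))

theorem agree_iff (u : (F →+* L) → ℝ) (x y : F →+* L) :
    (∀ a ∈ fixedSub u, y a = x a) ↔ Eqv (L ≃ₐ[ℚ] L) cbar u y x :=
  ⟨fun h' => eqv_of_agree u x y h', fun h' _ ha => ha y x h'⟩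

open Classical in
/-- The consequences of a nonzero relation, for dominating slopes. -/
theorem normSub_of_rel (j : L →+* ℂ) (h : ∀ ψ : F →+* ℂ, ∃ φ : F →+* L, j.comp φ = ψ)
    (e : L →ₐ[ℚ] PadicAlgCl p) (m : ℕ) (π : F)
    (hweil : ∀ φ : F →+* ℂ, ‖φ π‖ ^ 2 = (((p : ℚ) ^ m : ℚ) : ℝ))
    (hdom : DominantSlopes p m π) (c : (F →+* L) → ℤ)
    (hrel : IsRel (L ≃ₐ[ℚ] L) cbar (uvec p e m π) c) (hc0 : ∃ φ, c φ ≠ 0) :
    NormSub p m π (fixedSub (uvec p e m π)) ∧
      ∀ x₁ : F →+* L, IsRel (L ≃ₐ[ℚ] L) cbar (uvec p e m π)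
        (fun x => (if Eqv (L ≃ₐ[ℚ] L) cbar (uvec p e m π) x x₁ then 1 else 0) -
          (if Eqv (L ≃ₐ[ℚ] L) cbar (uvec p e m π) (cbar x) x₁ then 1 else 0)) := by
  have hp : p.Prime := Fact.out
  have hp1 : (1 : ℝ) < p := by exact_mod_cast hp.one_lt
  have hlog : 0 < Real.log p := Real.log_pos hp1
  have hq : (0 : ℚ) < (p : ℚ) ^ m := pow_pos (by exact_mod_cast hp.pos) _
  obtain ⟨τ₀, hτ₀, hdom⟩ := hdom
  let G := L ≃ₐ[ℚ] L
  let u : (F →+* L) → ℝ := uvec p e m π
  let w : (F →+* PadicAlgCl p) → ℝ := fun τ => 2 * (- Real.logb p ‖τ π‖) - m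
  let E : (F →+* L) → (F →+* PadicAlgCl p) := fun φ => (e : L →+* PadicAlgCl p).comp φ
  have hEinj : Function.Injective E := by
    intro φ φ' hh
    ext x
    have h1 : e (φ x) = e (φ' x) := RingHom.congr_fun hh x
    exact (e : L →+* PadicAlgCl p).injective h1
  have hEsurj : Function.Surjective E := fun τ => exists_lift j h e τ
  have huw : ∀ φ, u φ = -(Real.log p) * w (E φ) := by
    intro φ
    have h1 : - Real.logb p ‖((((p : ℚ) ^ m : ℚ)) : PadicAlgCl p)‖ = m := by
      rw [Pool.Agent.H925R2.norm_pow_cast, Real.logb_inv, Real.logb_pow,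
        Real.logb_self_eq_one hp1]
      ring
    simp only [u, uvec, w]
    rw [dev_eq_val, h1]
    rfl
  have hu : ∀ φ, u (cbar φ) = -u φ := by
    intro φ
    have h1 := dev_inv p hq.ne' (((e : L →+* PadicAlgCl p).comp φ) π)
      ((map_ne_zero _).2 (weil_ne hq hweil))
    rw [← weil_cbar hq hweil] at h1
    exact h1
  obtain ⟨x₀, hx₀⟩ := hEsurj τ₀
  have hux₀ : u x₀ ≠ 0 := by
    rw [huw, hx₀]
    exact mul_ne_zero (neg_ne_zero.2 hlog.ne') (sub_ne_zero.2 hτ₀)
  have habs : ∀ φ, |u φ| = Real.log p * |w (E φ)| := by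
    intro φ
    rw [huw, abs_mul, abs_neg, abs_of_pos hlog]
  have hfin : ∑ᶠ τ : F →+* PadicAlgCl p, |w τ| = ∑ φ : F →+* L, |w (E φ)| := by
    rw [← finsum_eq_sum_of_fintype, ← finsum_comp E ⟨hEinj, hEsurj⟩]
  have hsum : ∑ φ : F →+* L, |u φ| = Real.log p * ∑ᶠ τ : F →+* PadicAlgCl p, |w τ| := by
    rw [hfin, Finset.mul_sum]
    exact Finset.sum_congr rfl fun φ _ => habs φ
  have hu0 : |u x₀| = Real.log p * |w τ₀| := by rw [habs, hx₀]
  have hdle : ∑ φ : F →+* L, |u φ| ≤ 4 * |u x₀| := by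
    rw [hsum, hu0]
    have h1 : ∑ᶠ τ : F →+* PadicAlgCl p, |w τ| ≤ 4 * |w τ₀| := hdom
    have := mul_le_mul_of_nonneg_left h1 hlog.le
    linarith
  refine ⟨?_, fun x₁ => isRel_class (G := G) cbar_cbar cbar_ne smul_cbar' hu x₀ hux₀ hdle c hrel
    hc0 x₁⟩
  obtain ⟨-, y, hy1, hy2, hy3⟩ := (dom_eq (G := G) cbar_cbar cbar_ne smul_cbar' hu x₀ hux₀ hdle c
    hrel).2 hc0
  have hyx : Eqv G cbar u y x₀ := fun c' hc' =>
    (dom_eq (G := G) cbar_cbar cbar_ne smul_cbar' hu x₀ hux₀ hdle c' hc').1 y hy2 hy3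
  have hagree := agree_iff u
  obtain ⟨φ, hne⟩ := hc0
  refine ⟨?_, ?_, ?_⟩
  · intro htop
    apply hy1
    ext a
    exact (hagree x₀ y).2 hyx a (by
      change a ∈ fixedSub (uvec p e m π)
      rw [htop]
      trivial)
  · by_contra hall
    push Not at hall
    have h1 : Eqv G cbar u (cbar φ) φ := by
      rw [← hagree]
      intro a ha
      apply j.injective
      have h2 : j (cbar φ a) = starRingEnd ℂ (j (φ a)) := by
        have h3 := comp_cbar j φ
        have h4 := RingHom.congr_fun h3 a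
        exact h4
      rw [h2]
      exact Complex.conj_eq_iff_im.2 (hall a ha (j.comp φ))
    have h2 := h1 c hrel
    rw [hrel.1] at h2
    omega
  · intro τ₁
    obtain ⟨x₁, rfl⟩ := hEsurj τ₁
    have himg : {τ : F →+* PadicAlgCl p | ∀ a ∈ fixedSub (uvec p e m π), τ a = E x₁ a} =
        E '' {x | Eqv G cbar u x x₁} := by
      ext τ
      constructor
      · intro h1
        obtain ⟨x, rfl⟩ := hEsurj τ
        refine ⟨x, ?_, rfl⟩
        change Eqv G cbar u x x₁
        rw [← hagree]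
        intro a ha
        exact (e : L →+* PadicAlgCl p).injective (h1 a ha)
      · rintro ⟨x, h1, rfl⟩ a ha
        change e (x a) = e (x₁ a)
        rw [(hagree x₁ x).2 h1 a ha]
    rw [himg, finsum_mem_image hEinj.injOn, finsum_mem_eq_toFinset_sum]
    have h1 := sum_class (G := G) cbar_cbar cbar_ne smul_cbar' hu x₀ hux₀ hdle c hrel ⟨φ, hne⟩ x₁
    have h2 : {x | Eqv G cbar u x x₁}.toFinset = Finset.univ.filter (fun x => Eqv G cbar u x x₁) := by
      ext x
      simp
    rw [h2]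
    have h3 : -(Real.log p) * ∑ x ∈ Finset.univ.filter (fun x => Eqv G cbar u x x₁), w (E x) = 0 := by
      rw [← h1, Finset.mul_sum]
      exact Finset.sum_congr rfl fun x _ => (huw x).symm
    exact (mul_eq_zero.1 h3).resolve_left (neg_ne_zero.2 hlog.ne')

end

section

variable {Ω V : Type*} [Field Ω] [AddCommGroup V] [Module Ω V]

theorem map_smul_deg (c : Ω) (f : V →ₗ[Ω] V) (k : ℕ) (x : ExteriorAlgebra Ω V)
    (hx : x ∈ ⋀[Ω]^k V) : ExteriorAlgebra.map (c • f) x = c ^ k • ExteriorAlgebra.map f x := by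
  rw [← ExteriorAlgebra.ιMulti_span_fixedDegree] at hx
  induction hx using Submodule.span_induction with
  | mem x hx =>
    obtain ⟨v, rfl⟩ := hx
    rw [ExteriorAlgebra.map_apply_ιMulti, ExteriorAlgebra.map_apply_ιMulti]
    have h1 : (⇑(c • f) ∘ v) = fun i => (fun _ : Fin k => c) i • (⇑f ∘ v) i := by
      funext i
      rfl
    rw [h1]
    have h2 := (ExteriorAlgebra.ιMulti Ω k (M := V)).toMultilinearMap.map_smul_univ
      (fun _ : Fin k => c) (⇑f ∘ v)
    rw [Finset.prod_const, Finset.card_univ, Fintype.card_fin] at h2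
    exact h2
  | zero => rw [map_zero, map_zero, smul_zero]
  | add x y _ _ hx hy => rw [map_add, map_add, hx, hy, smul_add]
  | smul a x _ hx => rw [map_smul, map_smul, hx, smul_comm]

theorem map_pow_fix (Θ : V →ₗ[Ω] V) (k : ℕ) (x : ExteriorAlgebra Ω V)
    (hx : ExteriorAlgebra.map (Θ ^ k) x = x) (l : ℕ) : ExteriorAlgebra.map (Θ ^ (k * l)) x = x := by
  induction l with
  | zero =>
    rw [mul_zero, pow_zero]
    have h1 : ExteriorAlgebra.map (1 : V →ₗ[Ω] V) = AlgHom.id Ω (ExteriorAlgebra Ω V) :=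
      ExteriorAlgebra.map_id
    rw [h1]
    rfl
  | succ l ih =>
    rw [mul_add, mul_one, pow_add]
    have h1 : ExteriorAlgebra.map (Θ ^ (k * l) * Θ ^ k) x =
        ExteriorAlgebra.map (Θ ^ (k * l)) (ExteriorAlgebra.map (Θ ^ k) x) := by
      have h2 := ExteriorAlgebra.map_comp_map (Θ ^ k) (Θ ^ (k * l))
      have h3 := AlgHom.congr_fun h2 x
      exact h3.symm
    rw [h1, hx, ih]

end

variable {I : Type*} (p : ℕ) [Fact p.Prime] {K : I → Type*} [∀ i, Field (K i)]
  [∀ i, NumberField (K i)] [∀ i, IsCMField (K i)]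
  {Ω : Type*} [Field Ω] [IsAlgClosed Ω] [CharZero Ω]
  {V : Type*} [AddCommGroup V] [Module Ω V]

/-- **The elements of the algebra generated by the Tate classes of degree two and the norm classes
are Tate classes over some extension.** -/
theorem tate_of_mem [Finite I] (a : ℕ) (π : ∀ i, K i) (hint : ∀ i, IsIntegral ℤ (π i))
    (hweil : ∀ i, ∀ φ : K i →+* ℂ, ‖φ (π i)‖ ^ 2 = (((p : ℚ) ^ a : ℚ) : ℝ))
    (Φ : V →ₗ[Ω] V) (m : ℕ) (x : ExteriorAlgebra Ω V) (hx : x ∈ ⋀[Ω]^(2 * m) V)
    (hmem : x ∈ Algebra.adjoin Ω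
      ({y : ExteriorAlgebra Ω V | y ∈ ⋀[Ω]^2 V ∧ ExteriorAlgebra.map Φ y = (p : Ω) ^ a • y} ∪
        {y | ∃ i, ∃ E : Subfield (K i), NormSub p a (π i) E ∧ y ∈ normClasses Φ (π i) E})) :
    ∃ s : ℕ, 0 < s ∧ ExteriorAlgebra.map (Φ ^ s) x = (((p : Ω) ^ a) ^ m) ^ s • x := by
  classical
  cases nonempty_fintype I
  have hp : p.Prime := Fact.out
  have hq : (0 : ℚ) < (p : ℚ) ^ a := pow_pos (by exact_mod_cast hp.pos) _
  have hqΩ : (p : Ω) ^ a ≠ 0 := pow_ne_zero _ (by exact_mod_cast hp.ne_zero)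
  obtain ⟨L, hL1, hL2, j, h⟩ := exists_galois K
  let e : L →ₐ[ℚ] PadicAlgCl p := IsAlgClosed.lift
  let jΩ : L →ₐ[ℚ] Ω := IsAlgClosed.lift
  obtain ⟨c, hc⟩ := IsAlgClosed.exists_pow_nat_eq ((p : Ω) ^ a) (n := 2) (by norm_num)
  have hc0 : c ≠ 0 := by
    rintro rfl
    rw [zero_pow two_ne_zero] at hc
    exact hqΩ hc.symm
  let Θ : V →ₗ[Ω] V := c⁻¹ • Φ
  have key : ∃ s : ℕ, 0 < s ∧ ExteriorAlgebra.map (Θ ^ (2 * s)) x = x := by
    clear hx
    induction hmem using Algebra.adjoin_induction with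
    | mem y hy =>
      rcases hy with ⟨hy2, hyF⟩ | ⟨i, E, ⟨-, -, hE⟩, σ₁, r, σ, v, hσinj, hσ, hv, rfl⟩
      · refine ⟨1, one_pos, ?_⟩
        have h1 : ExteriorAlgebra.map (Θ ^ 1) y = y := by
          rw [pow_one]
          change ExteriorAlgebra.map (c⁻¹ • Φ) y = y
          rw [map_smul_deg _ _ _ _ hy2, hyF, smul_smul, ← hc, ← mul_pow, inv_mul_cancel₀ hc0,
            one_pow, one_smul]
        have h2 := map_pow_fix Θ 1 y h1 2
        rw [one_mul] at h2
        exact h2
      · obtain ⟨x₁, hx₁⟩ := exists_lift j (h i) jΩ σ₁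
        choose xs hxs using fun k => exists_lift j (h i) jΩ (σ k)
        have hinj : Function.Injective xs := by
          intro k l hkl
          apply hσinj
          rw [← hxs k, ← hxs l, hkl]
        let B : Finset (K i →+* L) := Finset.univ.image xs
        have hcomp : ∀ y y' : K i →+* L, (jΩ : L →+* Ω).comp y = (jΩ : L →+* Ω).comp y' → y = y' := by
          intro y y' hyy
          exact RingHom.ext fun b => (jΩ : L →+* Ω).injective (RingHom.congr_fun hyy b)
        have hB : ∀ y, y ∈ B ↔ ∀ b ∈ E, y b = x₁ b := by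
          intro y
          have h1 := hσ ((jΩ : L →+* Ω).comp y)
          constructor
          · intro hy b hb
            obtain ⟨k, -, hk⟩ := Finset.mem_image.1 hy
            have h2 := h1.1 ⟨k, by rw [← hxs k, hk]⟩ b hb
            rw [← hx₁] at h2
            exact (jΩ : L →+* Ω).injective h2
          · intro hy
            obtain ⟨k, hk⟩ := h1.2 (fun b hb => by
              rw [← hx₁]
              change jΩ (y b) = jΩ (x₁ b)
              rw [hy b hb])
            rw [← hxs k] at hk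
            exact Finset.mem_image.2 ⟨k, Finset.mem_univ _, hcomp _ _ hk⟩
        obtain ⟨s, hs, hrel⟩ := norm_pow_eq p j (h i) e a (π i) (hint i) (hweil i) E hE B x₁ hB
        refine ⟨s, hs, ?_⟩
        have hcard : B.card = r := by
          rw [Finset.card_image_of_injective _ hinj, Finset.card_univ, Fintype.card_fin]
        have hΘ : ∀ k, (Θ ^ (2 * s)) (v k) = (c⁻¹ * σ k (π i)) ^ (2 * s) • v k := by
          intro k
          apply pow_eigen'
          change c⁻¹ • Φ (v k) = _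
          rw [hv k, smul_smul]
        rw [ExteriorAlgebra.map_apply_ιMulti]
        have h1 : (⇑(Θ ^ (2 * s)) ∘ v) = fun k => (c⁻¹ * σ k (π i)) ^ (2 * s) • v k := by
          funext k
          exact hΘ k
        have h2 := (ExteriorAlgebra.ιMulti Ω r (M := V)).toMultilinearMap.map_smul_univ
          (fun k : Fin r => (c⁻¹ * σ k (π i)) ^ (2 * s)) v
        have h3 : ∏ k : Fin r, (c⁻¹ * σ k (π i)) ^ (2 * s) = 1 := by
          rw [Finset.prod_pow, Finset.prod_mul_distrib, Finset.prod_const, Finset.card_univ,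
            Fintype.card_fin, mul_pow]
          have h4 : ∏ k : Fin r, σ k (π i) = jΩ (∏ y ∈ B, y (π i)) := by
            rw [map_prod, Finset.prod_image (fun k _ l _ hkl => hinj hkl)]
            refine Finset.prod_congr rfl fun k _ => ?_
            rw [← hxs k]
            rfl
          rw [h4, ← map_pow, hrel, map_pow, map_pow, map_natCast, hcard, ← hc, ← pow_mul,
            ← pow_mul, ← mul_assoc]
          have h5 : r * 2 * s = 2 * (r * s) := by ring
          rw [h5, ← mul_pow, inv_mul_cancel₀ hc0, one_pow]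
        rw [h3, one_smul] at h2
        rw [h1]
        exact h2
    | algebraMap r =>
      exact ⟨1, one_pos, AlgHom.commutes _ r⟩
    | add x y _ _ hx hy =>
      obtain ⟨s, hs, hx⟩ := hx
      obtain ⟨t, ht, hy⟩ := hy
      refine ⟨s * t, Nat.mul_pos hs ht, ?_⟩
      rw [map_add]
      congr 1
      · have h1 := map_pow_fix Θ (2 * s) x hx t
        rwa [mul_assoc] at h1
      · have h1 := map_pow_fix Θ (2 * t) y hy s
        have h2 : 2 * t * s = 2 * (s * t) := by ring
        rwa [h2] at h1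
    | mul x y _ _ hx hy =>
      obtain ⟨s, hs, hx⟩ := hx
      obtain ⟨t, ht, hy⟩ := hy
      refine ⟨s * t, Nat.mul_pos hs ht, ?_⟩
      rw [map_mul]
      congr 1
      · have h1 := map_pow_fix Θ (2 * s) x hx t
        rwa [mul_assoc] at h1
      · have h1 := map_pow_fix Θ (2 * t) y hy s
        have h2 : 2 * t * s = 2 * (s * t) := by ring
        rwa [h2] at h1
  obtain ⟨s, hs, hkey⟩ := key
  refine ⟨2 * s, by omega, ?_⟩
  have h1 : Φ ^ (2 * s) = c ^ (2 * s) • Θ ^ (2 * s) := by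
    change Φ ^ (2 * s) = c ^ (2 * s) • (c⁻¹ • Φ) ^ (2 * s)
    rw [smul_pow, smul_smul, ← mul_pow, mul_inv_cancel₀ hc0, one_pow, one_smul]
  rw [h1, map_smul_deg _ _ _ _ hx, hkey, ← hc, ← pow_mul, ← pow_mul, ← pow_mul]
  congr 2
  ring

theorem count_ofFn {α : Type*} [DecidableEq α] {n : ℕ} (y : Fin n → α) (z : α) :
    (List.ofFn y).count z = (Finset.univ.filter (fun k => y k = z)).card := by
  rw [← Multiset.coe_count, ← Fin.univ_val_map, Multiset.count_map]
  change Multiset.card _ = Multiset.card (Finset.filter _ _).val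
  rw [Finset.filter_val]
  congr 1
  refine Multiset.filter_congr fun a _ => ?_
  exact eq_comm

/-- The relation given by a relation between products of conjugates. -/
theorem rel_of_prod [Fintype I] {L : Type*} [Field L] [NumberField L] [IsGalois ℚ L]
    (q : ℚ) (hq : 0 < q) (π : ∀ i, K i)
    (hweil : ∀ i, ∀ φ : K i →+* ℂ, ‖φ (π i)‖ ^ 2 = (q : ℝ)) (e : L →ₐ[ℚ] PadicAlgCl p)
    {n : ℕ} (y : Fin n → Σ i, (K i →+* L)) (s : ℕ) (hs : 0 < s)
    (hrel : (∏ k, (y k).2 (π (y k).1)) ^ (2 * s) = (q ^ n : L) ^ s)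
    [DecidableEq (Σ i, (K i →+* L))] (g : L ≃ₐ[ℚ] L) :
    ∑ x : Σ i, (K i →+* L), (((List.ofFn y).count x : ℤ) - ((List.ofFn y).count (inj x) : ℤ) : ℤ) *
      slope p (fun _ => q) π e (g • x) = 0 := by
  let X := Σ i, (K i →+* L)
  let N : X → ℤ := fun z => ((List.ofFn y).count z : ℤ)
  have hsumN : ∀ f : X → ℝ, ∑ z, (N z : ℝ) * f z = ∑ k, f (y k) := by
    intro f
    rw [← Finset.sum_fiberwise Finset.univ y (fun k => f (y k))]
    refine Finset.sum_congr rfl fun z _ => ?_
    rw [Finset.sum_congr rfl (fun a ha => by rw [(Finset.mem_filter.1 ha).2])]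
    rw [Finset.sum_const, nsmul_eq_mul]
    congr 1
    simp only [N]
    rw [Int.cast_natCast]
    congr 1
    exact count_ofFn y z
  have h1 := sum_dev p (fun k => (y k).1) (fun _ => q) (fun _ => hq)
    (fun k => g ((y k).2 (π (y k).1)))
    (fun k => (map_ne_zero g).2 ((map_ne_zero _).2 (weil_ne hq (hweil _)))) s hs (by
      rw [← map_prod, ← map_pow, hrel, Finset.prod_const, Finset.card_univ, Fintype.card_fin,
        map_pow, map_pow, map_ratCast]) e
  have h2 : ∑ z : X, (N z : ℝ) * slope p (fun _ => q) π e (g • z) = 0 := by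
    rw [hsumN]
    exact h1
  have h3 : ∑ z : X, (N (inj z) : ℝ) * slope p (fun _ => q) π e (g • z) =
      - ∑ z : X, (N z : ℝ) * slope p (fun _ => q) π e (g • z) := by
    rw [← Finset.sum_neg_distrib]
    refine Finset.sum_nbij' inj inj (fun _ _ => Finset.mem_univ _)
      (fun _ _ => Finset.mem_univ _) (fun y _ => inj_inj y) (fun y _ => inj_inj y) ?_
    intro z _
    have h4 : g • z = inj (g • inj z) := by
      obtain ⟨b, ψ⟩ := z
      change _ = (⟨b, cbar (g • cbar ψ)⟩ : X)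
      have h5 : g • cbar ψ = cbar (g • ψ) := rfl
      rw [h5, cbar_cbar]
      rfl
    conv_lhs => rw [h4, slope_inj p (fun _ => hq) hweil]
    ring
  have h4 : ∀ z : X, ((N z - N (inj z) : ℤ) : ℝ) * slope p (fun _ => q) π e (g • z) =
      (N z : ℝ) * slope p (fun _ => q) π e (g • z) -
        (N (inj z) : ℝ) * slope p (fun _ => q) π e (g • z) := by
    intro z
    push_cast
    ring
  have h5 : ∑ z : X, ((N z - N (inj z) : ℤ) : ℝ) * slope p (fun _ => q) π e (g • z) = 0 := by
    rw [Finset.sum_congr rfl (fun z _ => h4 z), Finset.sum_sub_distrib, h3, h2]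
    simp
  refine Eq.trans (Finset.sum_congr rfl fun z _ => ?_) h5
  simp only [N]

end Pool.Agent.Helper33Dom
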