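import Mathlib
import Pool.Agent.H194R3.Weil.Block
import Pool.Agent.Helper33_dom.Struct

/-!
# Tame Weil numbers: the relations come from a subfield
-/

set_option autoImplicit false
set_option linter.unusedSectionVars false

namespace Pool.Agent.Helper33Dom

open NumberField Module Pool.Agent.H925R2 Pool.Agent.H485R3 Pool.Agent.H204R3.CM
  Pool.Agent.H868R3.TwoOdd Pool.Agent.H194R3.CM Pool.Agent.H194R3.Tate

/-- The maximal real subfield `F⁺` is pair-transitive; its degree `n` is odd, or `n - 1` is a prime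
number, or `F⁺` is triple-transitive; `π` is an algebraic integer all powers of which generate
`F`. -/
def PairTransitiveType {F : Type*} [Field F] [NumberField F] (π : F) : Prop :=
  IsIntegral ℤ π ∧ (∀ s : ℕ, 0 < s → IntermediateField.adjoin ℚ {π ^ s} = ⊤) ∧
    PairTransitive (maximalRealSubfield F) ∧
    (Odd (finrank ℚ (maximalRealSubfield F)) ∨ (finrank ℚ (maximalRealSubfield F) - 1).Prime ∨
      TripleTransitive (maximalRealSubfield F))

section

variable {F : Type*} [Field F] [NumberField F] [IsCMField F]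
  {L : Type*} [Field L] [NumberField L] [IsGalois ℚ L] (p : ℕ) [Fact p.Prime]

open Classical in
/-- All relations come from the subfield `fixedSub`, which is then a subfield as in the definition
`NormSub`. -/
def Tame (e : L →ₐ[ℚ] PadicAlgCl p) (m : ℕ) (π : F) : Prop :=
  ∀ c : (F →+* L) → ℤ, IsRel (L ≃ₐ[ℚ] L) cbar (uvec p e m π) c → (∃ φ, c φ ≠ 0) →
    NormSub p m π (fixedSub (uvec p e m π)) ∧
      ∀ x₁ : F →+* L, IsRel (L ≃ₐ[ℚ] L) cbar (uvec p e m π)
        (fun x => (if Eqv (L ≃ₐ[ℚ] L) cbar (uvec p e m π) x x₁ then 1 else 0) -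
          (if Eqv (L ≃ₐ[ℚ] L) cbar (uvec p e m π) (cbar x) x₁ then 1 else 0))

theorem tame_of_dominant (j : L →+* ℂ) (h : ∀ ψ : F →+* ℂ, ∃ φ : F →+* L, j.comp φ = ψ)
    (e : L →ₐ[ℚ] PadicAlgCl p) (m : ℕ) (π : F)
    (hweil : ∀ φ : F →+* ℂ, ‖φ π‖ ^ 2 = (((p : ℚ) ^ m : ℚ) : ℝ))
    (hdom : DominantSlopes p m π) : Tame p e m π :=
  fun c hc hc0 => normSub_of_rel p j h e m π hweil hdom c hc hc0

open Classical in
/-- The subfield given by the equivalence classes, if the classes give relations. -/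
theorem normSub_of_classes (j : L →+* ℂ) (h : ∀ ψ : F →+* ℂ, ∃ φ : F →+* L, j.comp φ = ψ)
    (e : L →ₐ[ℚ] PadicAlgCl p) (m : ℕ) (π : F)
    (hweil : ∀ φ : F →+* ℂ, ‖φ π‖ ^ 2 = (((p : ℚ) ^ m : ℚ) : ℝ))
    (c : (F →+* L) → ℤ)
    (hrel : IsRel (L ≃ₐ[ℚ] L) cbar (uvec p e m π) c) (φ : F →+* L) (hne : c φ ≠ 0)
    (hcls : ∀ x₁ : F →+* L, IsRel (L ≃ₐ[ℚ] L) cbar (uvec p e m π)
        (fun x => (if Eqv (L ≃ₐ[ℚ] L) cbar (uvec p e m π) x x₁ then 1 else 0) -
          (if Eqv (L ≃ₐ[ℚ] L) cbar (uvec p e m π) (cbar x) x₁ then 1 else 0)))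
    (x₀ y : F →+* L) (hy1 : y ≠ x₀) (hyx : Eqv (L ≃ₐ[ℚ] L) cbar (uvec p e m π) y x₀) :
    NormSub p m π (fixedSub (uvec p e m π)) := by
  have hp : p.Prime := Fact.out
  have hp1 : (1 : ℝ) < p := by exact_mod_cast hp.one_lt
  have hlog : 0 < Real.log p := Real.log_pos hp1
  have hq : (0 : ℚ) < (p : ℚ) ^ m := pow_pos (by exact_mod_cast hp.pos) _
  let G := L ≃ₐ[ℚ] L
  let u : (F →+* L) → ℝ := uvec p e m π
  let w : (F →+* PadicAlgCl p) → ℝ := fun τ => 2 * (- Real.logb p ‖τ π‖) - m
  let E : (F →+* L) → (F →+* PadicAlgCl p) := fun φ => (e : L →+* PadicAlgCl p).comp φ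
  have hEinj : Function.Injective E := by
    intro φ φ' hh
    ext x
    have h1 : e (φ x) = e (φ' x) := RingHom.congr_fun hh x
    exact (e : L →+* PadicAlgCl p).injective h1
  have hEsurj : Function.Surjective E := fun τ => exists_lift j h e τ
  have huw : ∀ φ, u φ = -(Real.log p) * w (E φ) := by
    intro φ
    have h1 : - Real.logb p ‖((((p : ℚ) ^ m : ℚ)) : PadicAlgCl p)‖ = m := by
      rw [Pool.Agent.H925R2.norm_pow_cast, Real.logb_inv, Real.logb_pow,
        Real.logb_self_eq_one hp1]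
      ring
    simp only [u, uvec, w]
    rw [dev_eq_val, h1]
    rfl
  have hu : ∀ φ, u (cbar φ) = -u φ := by
    intro φ
    have h1 := dev_inv p hq.ne' (((e : L →+* PadicAlgCl p).comp φ) π)
      ((map_ne_zero _).2 (weil_ne hq hweil))
    rw [← weil_cbar hq hweil] at h1
    exact h1
  have hagree := agree_iff u
  refine ⟨?_, ?_, ?_⟩
  · intro htop
    apply hy1
    ext a
    exact (hagree x₀ y).2 hyx a (by
      change a ∈ fixedSub (uvec p e m π)
      rw [htop]
      trivial)
  · by_contra hall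
    push Not at hall
    have h1 : Eqv G cbar u (cbar φ) φ := by
      rw [← hagree]
      intro a ha
      apply j.injective
      have h2 : j (cbar φ a) = starRingEnd ℂ (j (φ a)) := by
        have h3 := comp_cbar j φ
        have h4 := RingHom.congr_fun h3 a
        exact h4
      rw [h2]
      exact Complex.conj_eq_iff_im.2 (hall a ha (j.comp φ))
    have h2 := h1 c hrel
    rw [hrel.1] at h2
    omega
  · intro τ₁
    obtain ⟨x₁, rfl⟩ := hEsurj τ₁
    have himg : {τ : F →+* PadicAlgCl p | ∀ a ∈ fixedSub (uvec p e m π), τ a = E x₁ a} =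
        E '' {x | Eqv G cbar u x x₁} := by
      ext τ
      constructor
      · intro h1
        obtain ⟨x, rfl⟩ := hEsurj τ
        refine ⟨x, ?_, rfl⟩
        change Eqv G cbar u x x₁
        rw [← hagree]
        intro a ha
        exact (e : L →+* PadicAlgCl p).injective (h1 a ha)
      · rintro ⟨x, h1, rfl⟩ a ha
        change e (x a) = e (x₁ a)
        rw [(hagree x₁ x).2 h1 a ha]
    rw [himg, finsum_mem_image hEinj.injOn, finsum_mem_eq_toFinset_sum]
    have h1 : ∑ x ∈ Finset.univ.filter (fun x => Eqv G cbar u x x₁), u x = 0 := by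
      have h2 := (hcls x₁).2 1
      have h3 : ∀ x, (((if Eqv G cbar u x x₁ then 1 else 0) -
          (if Eqv G cbar u (cbar x) x₁ then 1 else 0) : ℤ) : ℝ) * u ((1 : G) • x) =
          (if Eqv G cbar u x x₁ then u x else 0) -
            (if Eqv G cbar u (cbar x) x₁ then u x else 0) := by
        intro x
        rw [one_smul]
        split_ifs <;> simp
      have h4 : ∑ x, (if Eqv G cbar u (cbar x) x₁ then u x else 0) =
          -∑ x, (if Eqv G cbar u x x₁ then u x else 0) := by
        rw [← Finset.sum_neg_distrib]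
        refine Finset.sum_nbij' cbar cbar (fun _ _ => Finset.mem_univ _)
          (fun _ _ => Finset.mem_univ _) (fun y _ => cbar_cbar y) (fun y _ => cbar_cbar y) ?_
        intro y _
        rw [hu]
        split_ifs <;> simp
      have h5 : ∑ x, (((if Eqv G cbar u x x₁ then 1 else 0) -
          (if Eqv G cbar u (cbar x) x₁ then 1 else 0) : ℤ) : ℝ) * u ((1 : G) • x) = 0 := h2
      rw [Finset.sum_congr rfl (fun x _ => h3 x), Finset.sum_sub_distrib, h4] at h5
      rw [Finset.sum_filter]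
      linarith
    have h2 : {x | Eqv G cbar u x x₁}.toFinset = Finset.univ.filter (fun x => Eqv G cbar u x x₁) := by
      ext x
      simp
    rw [h2]
    have h3 : -(Real.log p) * ∑ x ∈ Finset.univ.filter (fun x => Eqv G cbar u x x₁), w (E x) = 0 := by
      rw [← h1, Finset.mul_sum]
      exact Finset.sum_congr rfl fun x _ => (huw x).symm
    exact (mul_eq_zero.1 h3).resolve_left (neg_ne_zero.2 hlog.ne')

theorem tame_of_pair (j : L →+* ℂ) (h : ∀ ψ : F →+* ℂ, ∃ φ : F →+* L, j.comp φ = ψ)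
    (e : L →ₐ[ℚ] PadicAlgCl p) (m : ℕ) (π : F)
    (hweil : ∀ φ : F →+* ℂ, ‖φ π‖ ^ 2 = (((p : ℚ) ^ m : ℚ) : ℝ))
    (hpair : PairTransitiveType π) : Tame p e m π := by
  classical
  obtain ⟨hint, hgen, htr, hdeg⟩ := hpair
  have hp : p.Prime := Fact.out
  have hq : (0 : ℚ) < (p : ℚ) ^ m := pow_pos (by exact_mod_cast hp.pos) _
  let G := L ≃ₐ[ℚ] L
  intro c hc ⟨φ₀, hc0⟩
  have hbs := fun c' (hc' : IsRel G cbar (uvec p e m π) c') =>
    Pool.Agent.H194R3.Weil.block_structure p j h e m π hint hgen hweil htr hdeg c' hc'.1 hc'.2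
  obtain ⟨v, l, hv, hvn, hcl, hrest⟩ := hbs c hc
  have hl : l ≠ 0 := by
    rintro rfl
    apply hc0
    rw [hcl, zero_mul]
  obtain ⟨-, -, hvrel⟩ := hrest hl
  have hv2 : ∀ x, v x * v x = 1 := by
    intro x
    rcases hv x with h' | h' <;> rw [h'] <;> norm_num
  have hvscale : ∀ t : ℤ, IsRel G cbar (uvec p e m π) (fun x => t * v x) := by
    intro t
    refine ⟨fun x => ?_, fun g => ?_⟩
    · change t * v (cbar x) = -(t * v x)
      rw [hvn]
      ring
    · have h1 := hvrel g
      have h2 : ∀ x : F →+* L, ((t * v x : ℤ) : ℝ) * uvec p e m π (g • x) =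
          (t : ℝ) * ((v x : ℝ) * dev p ((p : ℚ) ^ m) (e ((g • x) π))) := by
        intro x
        push_cast
        unfold uvec
        ring
      rw [Finset.sum_congr rfl (fun x _ => h2 x), ← Finset.mul_sum, h1, mul_zero]
  have hmult : ∀ c' : (F →+* L) → ℤ, IsRel G cbar (uvec p e m π) c' →
      ∀ x, c' x = c' φ₀ * v φ₀ * v x := by
    intro c' hc' x
    obtain ⟨v', l', hv', hvn', hcl', -⟩ := hbs _ (hc'.sub (hvscale (c' φ₀ * v φ₀)))
    have h1 := hcl' φ₀
    have h2 : c' φ₀ - c' φ₀ * v φ₀ * v φ₀ = 0 := by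
      rw [mul_assoc, hv2, mul_one, sub_self]
    have h3 : l' = 0 := by
      rw [h2] at h1
      rcases mul_eq_zero.1 h1.symm with h4 | h4
      · exact h4
      · rcases hv' φ₀ with h5 | h5 <;> rw [h5] at h4 <;> norm_num at h4
    have h4 := hcl' x
    rw [h3, zero_mul] at h4
    linarith
  have hEqv : ∀ x y, Eqv G cbar (uvec p e m π) x y ↔ v x = v y := by
    intro x y
    constructor
    · intro hxy
      have h1 := hxy _ (hvscale 1)
      simpa using h1
    · intro hxy c' hc'
      rw [hmult c' hc' x, hmult c' hc' y, hxy]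
  have hcls : ∀ x₁ : F →+* L, IsRel G cbar (uvec p e m π)
        (fun x => (if Eqv G cbar (uvec p e m π) x x₁ then 1 else 0) -
          (if Eqv G cbar (uvec p e m π) (cbar x) x₁ then 1 else 0)) := by
    intro x₁
    have h1 : (fun x => (if Eqv G cbar (uvec p e m π) x x₁ then (1 : ℤ) else 0) -
          (if Eqv G cbar (uvec p e m π) (cbar x) x₁ then 1 else 0)) =
        fun x => v x₁ * v x := by
      funext x
      simp only [hEqv, hvn]
      rcases hv x with h' | h' <;> rcases hv x₁ with h'' | h'' <;> rw [h', h''] <;> norm_num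
    rw [h1]
    exact hvscale (v x₁)
  refine ⟨?_, hcls⟩
  have hex : ∃ x y : F →+* L, y ≠ x ∧ v y = v x := by
    by_contra hno
    push Not at hno
    have hall : ∀ φ : F →+* L, φ ≠ φ₀ → φ = cbar φ₀ := by
      intro φ hφ
      by_contra hne
      have h2 := hno φ₀ φ hφ
      have h3 := hno (cbar φ₀) φ hne
      rw [hvn] at h3
      rcases hv φ with e1 | e1 <;> rcases hv φ₀ with e2 | e2 <;> simp [e1, e2] at h2 h3
    have hz : ∀ g : G, dev p ((p : ℚ) ^ m) (e ((g • φ₀) π)) = 0 := by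
      intro g
      have h2 := hvrel g
      have h3 : ∑ φ : F →+* L, (v φ : ℝ) * dev p ((p : ℚ) ^ m) (e ((g • φ) π)) =
          v φ₀ * dev p ((p : ℚ) ^ m) (e ((g • φ₀) π)) +
            v (cbar φ₀) * dev p ((p : ℚ) ^ m) (e ((g • cbar φ₀) π)) := by
        rw [← Finset.sum_pair (cbar_ne φ₀).symm
          (f := fun φ => (v φ : ℝ) * dev p ((p : ℚ) ^ m) (e ((g • φ) π)))]
        symm
        refine Finset.sum_subset (Finset.subset_univ _) fun φ _ hφ => ?_
        exfalso
        simp only [Finset.mem_insert, Finset.mem_singleton, not_or] at hφ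
        exact hφ.2 (hall φ hφ.1)
      have h4 : dev p ((p : ℚ) ^ m) (e ((g • cbar φ₀) π)) =
          -dev p ((p : ℚ) ^ m) (e ((g • φ₀) π)) := by
        have h1 := dev_inv p hq.ne' (((e : L →+* PadicAlgCl p).comp (g • φ₀)) π)
          ((map_ne_zero _).2 (weil_ne hq hweil))
        rw [← weil_cbar hq hweil] at h1
        exact h1
      rw [h3, h4, hvn] at h2
      push_cast at h2
      have h5 : (v φ₀ : ℝ) * dev p ((p : ℚ) ^ m) (e ((g • φ₀) π)) = 0 := by linarith
      refine (mul_eq_zero.1 h5).resolve_left ?_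
      rcases hv φ₀ with h' | h' <;> rw [h'] <;> norm_num
    obtain ⟨g, hg⟩ := exists_slope_ne_slope p m π hint hgen hweil e φ₀ (cbar φ₀) (cbar_ne φ₀).symm
    apply hg
    have h4 : dev p ((p : ℚ) ^ m) (e ((g • cbar φ₀) π)) =
        -dev p ((p : ℚ) ^ m) (e ((g • φ₀) π)) := by
      have h1 := dev_inv p hq.ne' (((e : L →+* PadicAlgCl p).comp (g • φ₀)) π)
        ((map_ne_zero _).2 (weil_ne hq hweil))
      rw [← weil_cbar hq hweil] at h1
      exact h1
    change dev p ((p : ℚ) ^ m) (e ((g • φ₀) π)) = dev p ((p : ℚ) ^ m) (e ((g • cbar φ₀) π))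
    rw [h4, hz g, neg_zero]
  obtain ⟨x, y, hxy, hvxy⟩ := hex
  exact normSub_of_classes p j h e m π hweil c hc φ₀ hc0 hcls x y hxy ((hEqv y x).2 hvxy)

end

end Pool.Agent.Helper33Dom
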