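import Mathlib
import Pool.Agent.Helper33_dom.PairCase

/-!
# All Tate classes for Weil numbers with dominating slopes: the main theorem
-/

set_option autoImplicit false
set_option linter.unusedSectionVars false

namespace Pool.Agent.Helper33Dom

open NumberField Module Pool.Agent.H925R2 Pool.Agent.H485R3 Pool.Agent.H204R3.CM
  Pool.Agent.H868R3.TwoOdd Pool.Agent.H194R3.CM Pool.Agent.H194R3.Tate

variable {I : Type*} (p : ℕ) [Fact p.Prime] {K : I → Type*} [∀ i, Field (K i)]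
  [∀ i, NumberField (K i)] [∀ i, IsCMField (K i)]
  {L : Type*} [Field L] [NumberField L] [IsGalois ℚ L]

/-- The vector of multiplicities `n` gives a relation in every block. -/
def Good (e : L →ₐ[ℚ] PadicAlgCl p) (a : ℕ) (π : ∀ i, K i) (n : (Σ i, (K i →+* L)) → ℕ) : Prop :=
  ∀ i, IsRel (L ≃ₐ[ℚ] L) cbar (uvec p e a (π i))
    (fun φ => (n ⟨i, φ⟩ : ℤ) - (n ⟨i, cbar φ⟩ : ℤ))

/-- The pairs of conjugate embeddings, and the classes of the subfields. -/
def Blocks (e : L →ₐ[ℚ] PadicAlgCl p) (a : ℕ) (π : ∀ i, K i) : Set (List (Σ i, (K i →+* L))) :=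
  {cs | (∃ x, cs = [x, inj x]) ∨
    ∃ i, ∃ x₁ : K i →+* L, NormSub p a (π i) (fixedSub (uvec p e a (π i))) ∧ cs.Nodup ∧
      ∀ y, y ∈ cs ↔ ∃ φ : K i →+* L, y = ⟨i, φ⟩ ∧
        Eqv (L ≃ₐ[ℚ] L) cbar (uvec p e a (π i)) φ x₁}

theorem cast_sub_count {X : Type*} [DecidableEq X] (n : X → ℕ) (cs : List X) (hnd : cs.Nodup)
    (hpos : ∀ c ∈ cs, 0 < n c) (x : X) [Decidable (x ∈ cs)] :
    ((n x - cs.count x : ℕ) : ℤ) = (n x : ℤ) - (if x ∈ cs then 1 else 0) := by
  by_cases hx : x ∈ cs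
  · rw [if_pos hx, List.count_eq_one_of_mem hnd hx]
    have := hpos x hx
    omega
  · rw [if_neg hx, List.count_eq_zero_of_not_mem hx]
    simp

theorem good_step [Fintype I] (e : L →ₐ[ℚ] PadicAlgCl p) (a : ℕ) (π : ∀ i, K i)
    (hπ : ∀ i, Tame p e a (π i))
    [DecidableEq (Σ i, (K i →+* L))] (n : (Σ i, (K i →+* L)) → ℕ) (hn : Good p e a π n)
    (hex : ∃ x, n x ≠ 0) :
    ∃ cs ∈ Blocks p e a π, cs ≠ [] ∧ cs.Nodup ∧ (∀ c ∈ cs, 0 < n c) ∧
      Good p e a π (fun x => n x - cs.count x) := by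
  classical
  obtain ⟨x, hx⟩ := hex
  by_cases hix : n (inj x) = 0
  · obtain ⟨i, φ⟩ := x
    have hix' : n ⟨i, cbar φ⟩ = 0 := hix
    have hcφ : (n ⟨i, φ⟩ : ℤ) - (n ⟨i, cbar φ⟩ : ℤ) ≠ 0 := by
      rw [hix']
      simpa using hx
    obtain ⟨hNS, hcls⟩ := hπ i _ (hn i) ⟨φ, hcφ⟩
    let C : Finset (K i →+* L) := Finset.univ.filter
      (fun ψ => Eqv (L ≃ₐ[ℚ] L) cbar (uvec p e a (π i)) ψ φ)
    let cs : List (Σ i, (K i →+* L)) := C.toList.map
      (fun ψ : K i →+* L => (⟨i, ψ⟩ : Σ i, (K i →+* L)))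
    have hcs : ∀ y, y ∈ cs ↔ ∃ ψ : K i →+* L, y = ⟨i, ψ⟩ ∧
        Eqv (L ≃ₐ[ℚ] L) cbar (uvec p e a (π i)) ψ φ := by
      intro y
      simp only [cs, List.mem_map, Finset.mem_toList, C, Finset.mem_filter, Finset.mem_univ,
        true_and]
      constructor
      · rintro ⟨ψ, h1, rfl⟩
        exact ⟨ψ, rfl, h1⟩
      · rintro ⟨ψ, rfl, h1⟩
        exact ⟨ψ, h1, rfl⟩
    have hmk : Function.Injective (fun ψ : K i →+* L => (⟨i, ψ⟩ : Σ i, (K i →+* L))) :=
      fun _ _ h' => eq_of_heq (Sigma.mk.inj_iff.1 h').2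
    have hnd : cs.Nodup := (Finset.nodup_toList C).map hmk
    have hmem : ∀ ψ : K i →+* L, (⟨i, ψ⟩ : Σ i, (K i →+* L)) ∈ cs ↔
        Eqv (L ≃ₐ[ℚ] L) cbar (uvec p e a (π i)) ψ φ := by
      intro ψ
      rw [hcs]
      constructor
      · rintro ⟨ψ', h1, h2⟩
        rw [hmk h1]
        exact h2
      · intro h1
        exact ⟨ψ, rfl, h1⟩
    have hmem' : ∀ i' : I, i' ≠ i → ∀ ψ : K i' →+* L, (⟨i', ψ⟩ : Σ i, (K i →+* L)) ∉ cs := by
      intro i' hi' ψ h1
      rw [hcs] at h1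
      obtain ⟨ψ', h1, -⟩ := h1
      exact hi' (congrArg Sigma.fst h1)
    have hpos : ∀ c ∈ cs, 0 < n c := by
      intro c hc
      rw [hcs] at hc
      obtain ⟨ψ, rfl, h1⟩ := hc
      have h2 : (n ⟨i, ψ⟩ : ℤ) - (n ⟨i, cbar ψ⟩ : ℤ) = (n ⟨i, φ⟩ : ℤ) - (n ⟨i, cbar φ⟩ : ℤ) :=
        h1 _ (hn i)
      rw [hix'] at h2
      have h3 : (0 : ℤ) < n ⟨i, φ⟩ := by
        have : n ⟨i, φ⟩ ≠ 0 := hx
        omega
      have h4 : (0 : ℤ) < n ⟨i, ψ⟩ := by
        have h5 : (0 : ℤ) ≤ n ⟨i, cbar ψ⟩ := Int.natCast_nonneg _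
        push_cast at h2
        linarith
      exact_mod_cast h4
    refine ⟨cs, Or.inr ⟨i, φ, hNS, hnd, hcs⟩, ?_, hnd, hpos, ?_⟩
    · intro h0
      have h1 : (⟨i, φ⟩ : Σ i, (K i →+* L)) ∈ cs := (hmem φ).2 (Eqv.refl φ)
      rw [h0] at h1
      exact absurd h1 (List.not_mem_nil)
    · intro i'
      by_cases hi' : i' = i
      · subst hi'
        have h1 := (hn i').sub (hcls φ)
        convert h1 using 2 with ψ
        rw [cast_sub_count n cs hnd hpos, cast_sub_count n cs hnd hpos]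
        simp only [hmem]
        ring
      · convert hn i' using 2 with ψ
        rw [cast_sub_count n cs hnd hpos, cast_sub_count n cs hnd hpos,
          if_neg (hmem' i' hi' ψ), if_neg (hmem' i' hi' (cbar ψ))]
        ring
  · have hne : x ≠ inj x := by
      obtain ⟨i, φ⟩ := x
      intro h1
      have h2 : φ = cbar φ := eq_of_heq (Sigma.mk.inj_iff.1 h1).2
      exact cbar_ne φ h2.symm
    have hnd : [x, inj x].Nodup := by
      simp [hne]
    have hpos : ∀ c ∈ [x, inj x], 0 < n c := by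
      intro c hc
      simp only [List.mem_cons, List.not_mem_nil, or_false] at hc
      rcases hc with rfl | rfl
      · omega
      · omega
    refine ⟨[x, inj x], Or.inl ⟨x, rfl⟩, by simp, hnd, hpos, ?_⟩
    intro i'
    convert hn i' using 2 with ψ
    rw [cast_sub_count n _ hnd hpos, cast_sub_count n _ hnd hpos]
    have h1 : (⟨i', ψ⟩ : Σ i, (K i →+* L)) ∈ [x, inj x] ↔
        (⟨i', cbar ψ⟩ : Σ i, (K i →+* L)) ∈ [x, inj x] := by
      have h2 : (⟨i', cbar ψ⟩ : Σ i, (K i →+* L)) = inj ⟨i', ψ⟩ := rfl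
      have h3 : ∀ y z : Σ i, (K i →+* L), inj y = z ↔ y = inj z := by
        intro y z
        constructor
        · rintro rfl
          rw [inj_inj]
        · rintro rfl
          rw [inj_inj]
      simp only [List.mem_cons, List.not_mem_nil, or_false]
      rw [h2, h3, h3, inj_inj]
      exact or_comm
    rw [if_congr h1 rfl rfl]
    ring

variable {Ω : Type*} [Field Ω] [IsAlgClosed Ω] [CharZero Ω]
  {V : Type*} [AddCommGroup V] [Module Ω V]

/-- **All Tate classes**: the Tate classes over all extensions are the elements of even degree of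
the algebra generated by the Tate classes of degree two and the norm classes. -/
theorem mem_of_tate [Finite I] (a : ℕ) (π : ∀ i, K i)
    (hweil : ∀ i, ∀ φ : K i →+* ℂ, ‖φ (π i)‖ ^ 2 = (((p : ℚ) ^ a : ℚ) : ℝ))
    (hπ : ∀ i, DominantSlopes p a (π i) ∨ PairTransitiveType (π i) ∨ FlipType p a (π i))
    (hcross : ∀ i j, i ≠ j → ∀ (φ : K i →+* ℂ) (ψ : K j →+* ℂ), CrossFlipped φ ψ)
    (Φ : V →ₗ[Ω] V)
    (hΦ : Submodule.span Ω {v : V | ∃ i, ∃ σ : K i →+* Ω, Φ v = σ (π i) • v} = ⊤)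
    (m s : ℕ) (hs : 0 < s) (x : ExteriorAlgebra Ω V) (hx : x ∈ ⋀[Ω]^(2 * m) V)
    (hFx : ExteriorAlgebra.map (Φ ^ s) x = (((p : Ω) ^ a) ^ m) ^ s • x) :
    x ∈ Algebra.adjoin Ω
      ({y : ExteriorAlgebra Ω V | y ∈ ⋀[Ω]^2 V ∧ ExteriorAlgebra.map Φ y = (p : Ω) ^ a • y} ∪
        {y | ∃ i, ∃ E : Subfield (K i), NormSub p a (π i) E ∧ y ∈ normClasses Φ (π i) E}) := by
  classical
  cases nonempty_fintype I
  have hp : p.Prime := Fact.out
  have hq : (0 : ℚ) < (p : ℚ) ^ a := pow_pos (by exact_mod_cast hp.pos) _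
  obtain ⟨L, hL1, hL2, j, h⟩ := exists_galois K
  let e : L →ₐ[ℚ] PadicAlgCl p := IsAlgClosed.lift
  let jΩ : L →ₐ[ℚ] Ω := IsAlgClosed.lift
  let G := L ≃ₐ[ℚ] L
  let X := Σ i, (K i →+* L)
  have hπ' : ∀ i, Tame p e a (π i) := by
    intro i
    rcases hπ i with hd | hpt | hfl
    · exact tame_of_dominant p j (h i) e a (π i) (hweil i) hd
    · exact tame_of_pair p j (h i) e a (π i) (hweil i) hpt
    · intro c hc ⟨φ, hφ⟩
      exact absurd (norel_of_mixed (I := Unit) p (K := fun _ => K i) (fun _ => a) (fun _ => π i)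
        (fun _ => hweil i) (fun _ => Or.inr hfl) (fun a b hab => absurd (Subsingleton.elim a b) hab)
        L inferInstance inferInstance j (fun _ => h i) e (fun x => c x.2)
        (fun x => hc.1 x.2) (fun g => by
          rw [Fintype.sum_sigma, Fintype.sum_unique]
          exact hc.2 g) ⟨(), φ⟩) hφ
  let μ : X → Ω := fun x => jΩ (x.2 (π x.1))
  have hspan : Submodule.span Ω {v : V | ∃ x, Φ v = μ x • v} = ⊤ := by
    rw [← hΦ]
    congr 1
    ext v
    constructor
    · rintro ⟨⟨i, φ⟩, hv⟩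
      exact ⟨i, (jΩ : L →+* Ω).comp φ, hv⟩
    · rintro ⟨i, σ, hv⟩
      obtain ⟨φ, rfl⟩ := exists_lift j (h i) jΩ σ
      exact ⟨⟨i, φ⟩, hv⟩
  refine mem_of_labels Φ μ hspan (2 * m) s ((((p : Ω) ^ a) ^ m) ^ s) _ ?_ x hx hFx
  intro v y hv hprod
  refine lprod_mem (fun w z => Φ w = μ z • w) (Blocks p e a π) (Good p e a π)
    (good_step p e a π hπ') _ ?_ (2 * m) (List.ofFn fun k => (v k, y k)) (by simp) ?_ ?_
  · -- the blocks
    intro T hT hTb
    rcases hTb with ⟨z, hz⟩ | ⟨i, x₁, hNS, hnd, hmem⟩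
    · obtain ⟨e1, T1, rfl⟩ : ∃ e1 T1, T = e1 :: T1 := by
        cases T with
        | nil => simp at hz
        | cons e1 T1 => exact ⟨e1, T1, rfl⟩
      obtain ⟨e2, T2, rfl⟩ : ∃ e2 T2, T1 = e2 :: T2 := by
        cases T1 with
        | nil => simp at hz
        | cons e2 T2 => exact ⟨e2, T2, rfl⟩
      simp only [List.map_cons, List.cons.injEq, List.map_eq_nil_iff] at hz
      obtain ⟨h1, h2, rfl⟩ := hz
      apply Algebra.subset_adjoin
      left
      have h3 : lprod (Ω := Ω) [e1, e2] = ExteriorAlgebra.ι Ω e1.1 * ExteriorAlgebra.ι Ω e2.1 := by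
        simp [lprod]
      rw [h3]
      have h4 := hT e1 (by simp)
      have h5 := hT e2 (by simp)
      rw [h1] at h4
      rw [h2] at h5
      refine iota_mul_mem_deg2 Φ _ (μ z) (μ (inj z)) e1.1 e2.1 h4 h5 ?_
      obtain ⟨i, φ⟩ := z
      change jΩ (φ (π i)) * jΩ (cbar φ (π i)) = _
      rw [weil_cbar hq (hweil i), ← map_mul jΩ (φ (π i)),
        mul_div_cancel₀ _ ((map_ne_zero _).2 (weil_ne hq (hweil i))), map_ratCast]
      push_cast
      rfl
    · apply Algebra.subset_adjoin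
      right
      refine ⟨i, fixedSub (uvec p e a (π i)), hNS, ?_⟩
      have hlab : ∀ k : Fin T.length, ∃ φ : K i →+* L, (T.get k).2 = ⟨i, φ⟩ ∧
          Eqv (L ≃ₐ[ℚ] L) cbar (uvec p e a (π i)) φ x₁ := by
        intro k
        exact (hmem _).1 (List.mem_map.2 ⟨T.get k, List.get_mem T k, rfl⟩)
      choose φ hφ1 hφ2 using hlab
      have hgetinj : Function.Injective fun k : Fin T.length => (T.get k).2 := by
        intro k l hkl
        have h1 : (T.map Prod.snd).Nodup := hnd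
        rw [List.nodup_iff_injective_get] at h1
        have h2 : (⟨k.1, by rw [List.length_map]; exact k.2⟩ : Fin (T.map Prod.snd).length) =
            ⟨l.1, by rw [List.length_map]; exact l.2⟩ := by
          apply h1
          simpa using hkl
        have h3 := congrArg Fin.val h2
        exact Fin.ext h3
      refine ⟨(jΩ : L →+* Ω).comp x₁, T.length, fun k => (jΩ : L →+* Ω).comp (φ k),
        fun k => (T.get k).1, ?_, ?_, ?_, ?_⟩
      · intro k l hkl
        apply hgetinj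
        change (T.get k).2 = (T.get l).2
        rw [hφ1 k, hφ1 l]
        congr 1
        exact RingHom.ext fun b => (jΩ : L →+* Ω).injective (RingHom.congr_fun hkl b)
      · intro τ
        constructor
        · rintro ⟨k, rfl⟩ b hb
          change jΩ (φ k b) = jΩ (x₁ b)
          rw [(agree_iff _ x₁ (φ k)).2 (hφ2 k) b hb]
        · intro hτ
          obtain ⟨ψ, rfl⟩ := exists_lift j (h i) jΩ τ
          have h1 : Eqv (L ≃ₐ[ℚ] L) cbar (uvec p e a (π i)) ψ x₁ := by
            rw [← agree_iff]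
            intro b hb
            exact (jΩ : L →+* Ω).injective (hτ b hb)
          have h2 := (hmem ⟨i, ψ⟩).2 ⟨ψ, rfl, h1⟩
          obtain ⟨f, hf, hf2⟩ := List.mem_map.1 h2
          obtain ⟨k, rfl⟩ := List.mem_iff_get.1 hf
          refine ⟨k, ?_⟩
          have h3 := hφ1 k
          rw [hf2] at h3
          have h4 : ψ = φ k := eq_of_heq (Sigma.mk.inj_iff.1 h3).2
          rw [h4]
      · intro k
        have h1 := hT (T.get k) (List.get_mem T k)
        rw [hφ1 k] at h1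
        exact h1
      · rw [ExteriorAlgebra.ιMulti_apply, lprod]
        congr 1
        have h1 : List.ofFn T.get = T := List.ofFn_get T
        conv_lhs => rw [← h1, List.map_ofFn]
        rfl
  · intro f hf
    rw [List.mem_ofFn] at hf
    obtain ⟨k, rfl⟩ := hf
    exact hv k
  · -- the multiplicities are good
    have hmap : (List.ofFn fun k => (v k, y k)).map Prod.snd = List.ofFn y := by
      rw [List.map_ofFn]
      rfl
    have hrel : (∏ k, (y k).2 (π (y k).1)) ^ (2 * s) = ((((p : ℚ) ^ a : ℚ) : L) ^ (2 * m)) ^ s := by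
      apply (jΩ : L →+* Ω).injective
      change jΩ _ = jΩ _
      rw [map_pow, map_prod, map_pow, map_pow, map_ratCast]
      have h1 : ∏ k, jΩ ((y k).2 (π (y k).1)) = ∏ k, μ (y k) := rfl
      rw [h1, mul_comm 2 s, pow_mul, hprod, Rat.cast_pow, Rat.cast_natCast, ← pow_mul, ← pow_mul,
        ← pow_mul, ← pow_mul, ← pow_mul]
      congr 1
      ring
    have hsum := rel_of_prod p ((p : ℚ) ^ a) hq π hweil e y s hs hrel
    let c : X → ℤ := fun z => ((List.ofFn y).count z : ℤ) - ((List.ofFn y).count (inj z) : ℤ)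
    have hG : ∀ (g : G) (x : X), g • inj x = inj (g • x) := by
      rintro g ⟨b, φ⟩
      rfl
    obtain ⟨hblock, -⟩ := core_block_real (X := X) (G := G) inj hG (fun x => x.1)
      (slope p (fun _ => (p : ℚ) ^ a) π e)
      (slope_inj p (fun _ => hq) hweil e)
      (fun x y hxy => by
        have hfl : Flipped (⟨x.1, j.comp x.2⟩ : Σ i, (K i →+* ℂ)) ⟨y.1, j.comp y.2⟩ := by
          obtain ⟨τ, ⟨h1, h2⟩ | ⟨h1, h2⟩⟩ := hcross x.1 y.1 (fun h' => hxy h'.symm) (j.comp x.2)
            (j.comp y.2)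
          · exact ⟨τ, Or.inl ⟨congrArg (Sigma.mk x.1) h1, congrArg (Sigma.mk y.1) h2⟩⟩
          · exact ⟨τ, Or.inr (Or.inl ⟨congrArg (Sigma.mk x.1) h1, congrArg (Sigma.mk y.1) h2⟩)⟩
        obtain ⟨g, hg | hg | hg⟩ := flip_transfer j x y hfl
        · exact ⟨g, Or.inl hg⟩
        · exact ⟨g, Or.inr hg⟩
        · exfalso
          apply hxy
          exact (congrArg Sigma.fst hg.1).symm) c (fun g => by
        refine Eq.trans (Finset.sum_congr rfl fun z _ => ?_) (hsum g)
        simp only [c])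
    intro i
    rw [hmap]
    refine ⟨fun φ => ?_, fun g => ?_⟩
    · simp only [cbar_cbar]
      ring
    · rw [← hblock i g, Finset.sum_filter, Fintype.sum_sigma, Finset.sum_eq_single i]
      · refine Finset.sum_congr rfl fun φ _ => ?_
        rw [if_pos rfl]
        rfl
      · intro b _ hb
        refine Finset.sum_eq_zero fun φ _ => ?_
        rw [if_neg hb]
      · intro h'
        exact absurd (Finset.mem_univ _) h'

end Pool.Agent.Helper33Dom
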