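import Mathlib
import Pool.Agent.Helper33_dom.Main

/-!
# Exotic Tate classes exist if and only if there is a subfield of norm type
-/

set_option autoImplicit false

universe u

namespace Pool.Agent.Helper33Dom

open NumberField Module Pool.Agent.H194R3.Tate

theorem criterion (p : ℕ) [Fact p.Prime] (a : ℕ) {I : Type} [Finite I] (K : I → Type)
    [∀ i, Field (K i)] [∀ i, NumberField (K i)] [∀ i, IsCMField (K i)]
    (π : ∀ i, K i) (hint : ∀ i, IsIntegral ℤ (π i))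
    (hgen : ∀ i, IntermediateField.adjoin ℚ {π i} = ⊤)
    (hweil : ∀ i, ∀ φ : K i →+* ℂ, ‖φ (π i)‖ ^ 2 = (p : ℝ) ^ a)
    (hπ : ∀ i, DominantSlopes p a (π i) ∨ PairTransitiveType (π i) ∨ FlipType p a (π i))
    (hcross : ∀ i j, i ≠ j → ∀ (φ : K i →+* ℂ) (ψ : K j →+* ℂ), CrossFlipped φ ψ)
    (Ω : Type u) [Field Ω] [IsAlgClosed Ω] [CharZero Ω] :
    (∀ (V : Type u) [AddCommGroup V] [Module Ω V] [FiniteDimensional Ω V] (Φ : V →ₗ[Ω] V),
      Submodule.span Ω {v : V | ∃ i, ∃ σ : K i →+* Ω, Φ v = σ (π i) • v} = ⊤ →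
      ∀ (m s : ℕ), 0 < s → ∀ x ∈ ⋀[Ω]^(2 * m) V,
        ExteriorAlgebra.map (Φ ^ s) x = (((p : Ω) ^ a) ^ m) ^ s • x →
        x ∈ Algebra.adjoin Ω {y : ExteriorAlgebra Ω V |
          y ∈ ⋀[Ω]^2 V ∧ ExteriorAlgebra.map Φ y = (p : Ω) ^ a • y}) ↔
      ∀ i, ∀ E : Subfield (K i), ¬ NormSub p a (π i) E := by
  have hweil' : ∀ i, ∀ φ : K i →+* ℂ, ‖φ (π i)‖ ^ 2 = (((p : ℚ) ^ a : ℚ) : ℝ) := by
    intro i φ
    rw [hweil i φ]
    push_cast
    rfl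
  constructor
  · intro hgenerated i E hE
    obtain ⟨d, Φ, hΦ, m, s, hs, x, hx, hFx, hnot⟩ := exists_exotic p a (π i) (hint i) (hgen i)
      (hweil' i) ⟨E, hE⟩ Ω
    apply hnot
    refine hgenerated (Fin d → Ω) Φ ?_ m s hs x hx hFx
    rw [eq_top_iff, ← hΦ]
    apply Submodule.span_mono
    rintro v ⟨σ, hv⟩
    exact ⟨i, σ, hv⟩
  · intro hno V _ _ _ Φ hΦ m s hs x hx hFx
    have h1 := mem_of_tate p a π hweil' hπ hcross Φ hΦ m s hs x hx hFx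
    refine Algebra.adjoin_mono ?_ h1
    rintro y (hy | ⟨i, E, hE, -⟩)
    · exact hy
    · exact absurd hE (hno i E)

end Pool.Agent.Helper33Dom
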